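import Pool.Agent.P8H8.SV.Lim

/-!
# Project SV, package PULL: the solution in the coordinate of the disc
-/

set_option autoImplicit false

open MeasureTheory Set Filter Metric
open scoped Topology ContDiff ComplexConjugate

namespace Pool.Agent.P8H8.SV

open Pool.Agent.TH298.Sch (SC dd Lr)
open Pool.Agent.R227.SA (la Dat)

namespace PULL

variable {φ : ℂ → ℂ} {r lam c : ℝ} {v : ℂ → ℝ}

lemma la_congr {f g : ℂ → ℝ} {w : ℂ} (h : f =ᶠ[𝓝 w] g) : la f w = la g w := by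
  unfold la dd
  have hf := h.fderiv (𝕜 := ℝ)
  have ha : ∀ η : ℂ, (fun x => fderiv ℝ f x η) =ᶠ[𝓝 w] fun x => fderiv ℝ g x η := by
    intro η
    filter_upwards [hf] with y hy
    rw [hy]
  rw [(ha 1).fderiv_eq, (ha Complex.I).fderiv_eq]

lemma eq_comp (h : Dom φ r) (D : Dat (φ '' ball 0 1) lam c v) {w : ℂ} (hw : w ∈ ball (0 : ℂ) r) :
    Vd φ v =ᶠ[𝓝 w] fun x => v (φ x) := by
  filter_upwards [isOpen_ball.mem_nhds hw] with x hx
  unfold Vd
  by_cases h1 : ‖x‖ < 1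
  · rw [if_pos h1]
  · rw [if_neg h1, D.out]
    rintro ⟨y, hy, hyx⟩
    have hyr : y ∈ ball (0 : ℂ) r := ball_subset_ball h.hr.le hy
    rw [h.inj hyr hx hyx, mem_ball_zero_iff] at hy
    exact h1 hy

lemma eq_zero (h : Dom φ r) {w : ℂ} (hw : w ∉ ball (0 : ℂ) r) : Vd φ v =ᶠ[𝓝 w] fun _ => 0 := by
  have h1 : 1 < ‖w‖ := by
    rw [mem_ball_zero_iff] at hw
    push Not at hw
    linarith [h.hr]
  filter_upwards [continuous_norm.continuousAt.eventually (lt_mem_nhds h1)] with x hx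
  unfold Vd
  rw [if_neg (not_lt.2 (le_of_lt hx))]

lemma not_mem (h : Dom φ r) {w : ℂ} (hw : w ∈ ball (0 : ℂ) r) (h1 : 1 ≤ ‖w‖) :
    φ w ∉ φ '' ball 0 1 := by
  rintro ⟨y, hy, hyx⟩
  have hyr : y ∈ ball (0 : ℂ) r := ball_subset_ball h.hr.le hy
  rw [h.inj hyr hw hyx, mem_ball_zero_iff] at hy
  linarith

lemma loc_v (D : Dat (φ '' ball 0 1) lam c v) {z : ℂ} (hz : z ∈ φ '' ball 0 1) :
    ContDiffAt ℝ ∞ v z ∧ la v z = -lam * (v z + c) := by
  obtain ⟨ρ, hρ, U, hU, hb, hUU⟩ := D.loc z hz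
  have hev : v =ᶠ[𝓝 z] fun x => U x + -c := by
    filter_upwards [ball_mem_nhds z hρ] with x hx
    have := (hUU x hx).1
    linarith
  refine ⟨(hU.sm.contDiffAt.add contDiffAt_const).congr_of_eventuallyEq hev, ?_⟩
  rw [la_congr hev]
  have h1 : la (fun x => U x + -c) z = la U z := by
    unfold la dd
    have e : ∀ η : ℂ, (fun x => fderiv ℝ (fun x => U x + -c) x η) = fun x => fderiv ℝ U x η := by
      intro η
      funext x
      rw [fderiv_add_const]
    rw [e, e]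
  have h2 := hUU z (mem_ball_self hρ)
  rw [h1, h2.2, ← h2.1]
  ring

theorem t_PULL (hLAP : S_LAP) : S_PULL := by
  intro φ r lam c v h D
  have hφr : ∀ w ∈ ball (0 : ℂ) r, AnalyticAt ℂ φ w := fun w hw =>
    h.hol.analyticAt (isOpen_ball.mem_nhds hw)
  have hφs : ∀ w ∈ ball (0 : ℂ) r, ContDiffAt ℝ ∞ φ w := fun w hw =>
    ((hφr w hw).contDiffAt (n := ∞)).restrict_scalars ℝ
  have hsub : ball (0 : ℂ) 1 ⊆ ball 0 r := ball_subset_ball h.hr.le
  refine ⟨?_, ?_, ?_, ?_⟩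
  · rw [contDiff_iff_contDiffAt]
    intro w
    by_cases hw : w ∈ ball (0 : ℂ) r
    · exact (D.c1.contDiffAt.comp w ((hφs w hw).of_le (by norm_cast))).congr_of_eventuallyEq
        (eq_comp h D hw)
    · exact contDiffAt_const.congr_of_eventuallyEq (eq_zero h hw)
  · intro w hw
    refine ⟨?_, ?_⟩
    · unfold Vd
      rw [if_neg (not_lt.2 hw)]
    · by_cases hwr : w ∈ ball (0 : ℂ) r
      · rw [(eq_comp h D hwr).fderiv_eq]
        have h1 : HasFDerivAt v (fderiv ℝ v (φ w)) (φ w) :=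
          (D.c1.differentiable (by norm_num) _).hasFDerivAt
        have h3 := h1.comp w (LIM.real_deriv (hφr w hwr).differentiableAt)
        have h4 : fderiv ℝ (fun x => v (φ x)) w = _ := h3.fderiv
        rw [h4, D.outd _ (not_mem h hwr hw)]
        simp
      · rw [(eq_zero (v := v) h hwr).fderiv_eq]
        simp
  · intro w hw
    have h1 := (loc_v D (mem_image_of_mem φ hw)).1.comp w (hφs w (hsub hw))
    exact (h1.congr_of_eventuallyEq (eq_comp h D (hsub hw))).contDiffWithinAt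
  · intro w hw
    obtain ⟨h1, h2⟩ := loc_v D (mem_image_of_mem φ hw)
    rw [la_congr (eq_comp h D (hsub hw)), hLAP v φ w (h1.of_le (by norm_cast)) (hφr w (hsub hw)),
      h2]
    have e : Vd φ v w = v (φ w) := (eq_comp h D (hsub hw)).self_of_nhds
    rw [e]
    ring

end PULL

end Pool.Agent.P8H8.SV
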