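import Pool.Agent.P8H8.SV.Core

/-!
# Project SV, package REG: assembly of the regularity statement
-/

set_option autoImplicit false

open MeasureTheory Set Filter Metric
open scoped Topology ContDiff ComplexConjugate

namespace Pool.Agent.P8H8.SV

open Pool.Agent.TH298.Sch (SC dd Lr)
open Pool.Agent.R227.SA (la Dat)

namespace REG

lemma Lr_cont {f : ℂ → ℝ} (hf : ContDiff ℝ 1 f) : Continuous (Lr f) := by
  unfold Lr
  exact (hf.continuous_fderiv (by norm_num)).clm_apply (by fun_prop)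

/-- a global extension of the right hand side -/
lemma ext_f {φ : ℂ → ℂ} {r : ℝ} (h : Dom φ r) {V : ℂ → ℝ} (hV : ContDiff ℝ 1 V) (lam c : ℝ) :
    ∃ f : ℂ → ℝ, ContDiff ℝ 1 f ∧
      ∀ w ∈ ball (0 : ℂ) 1, f w = -lam * ‖deriv φ w‖ ^ 2 * (V w + c) := by
  have hr := h.hr
  let χ : ContDiffBump (0 : ℂ) := ⟨1, (1 + r) / 2, one_pos, by linarith⟩
  refine ⟨fun w => χ w * (-lam * ‖deriv φ w‖ ^ 2 * (V w + c)), ?_, ?_⟩
  · rw [contDiff_iff_contDiffAt]
    intro w
    by_cases hw : w ∈ ball (0 : ℂ) r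
    · have h1 : ContDiffAt ℂ 1 (deriv φ) w :=
        ((h.hol.deriv isOpen_ball).contDiffOn isOpen_ball).contDiffAt (isOpen_ball.mem_nhds hw)
      have h2 : ContDiffAt ℝ 1 (deriv φ) w := h1.restrict_scalars ℝ
      have h3 : ContDiffAt ℝ 1 (fun w => ‖deriv φ w‖ ^ 2) w := h2.norm_sq ℝ
      exact (χ.contDiff.contDiffAt).mul ((contDiffAt_const.mul h3).mul
        (hV.contDiffAt.add contDiffAt_const))
    · have hne : ∀ᶠ x in 𝓝 w, χ x = 0 := by
        have h1 : (1 + r) / 2 < ‖w‖ := by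
          rw [mem_ball_zero_iff] at hw
          push Not at hw
          linarith
        have h2 : ∀ᶠ x in 𝓝 w, (1 + r) / 2 < ‖x‖ :=
          continuous_norm.continuousAt.eventually (lt_mem_nhds h1)
        filter_upwards [h2] with x hx
        apply χ.zero_of_le_dist
        rw [dist_zero_right]
        exact hx.le
      have : (fun w => χ w * (-lam * ‖deriv φ w‖ ^ 2 * (V w + c))) =ᶠ[𝓝 w] fun _ => 0 := by
        filter_upwards [hne] with x hx
        rw [hx, zero_mul]
      exact contDiffAt_const.congr_of_eventuallyEq this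
  · intro w hw
    have : χ w = 1 := χ.one_of_mem_closedBall (ball_subset_closedBall hw)
    simp only [this, one_mul]

lemma cs_of {V : ℂ → ℝ} (h : ∀ w, 1 ≤ ‖w‖ → V w = 0) : HasCompactSupport V := by
  refine HasCompactSupport.intro (isCompact_closedBall (0 : ℂ) 1) fun x hx => ?_
  rw [mem_closedBall_zero_iff, not_le] at hx
  exact h x hx.le

lemma fderiv_zero {W : ℂ → ℝ} (hW : ContDiff ℝ 1 W) (h : ∀ w, 1 ≤ ‖w‖ → W w = 0) (w : ℂ)
    (hw : 1 ≤ ‖w‖) : fderiv ℝ W w = 0 := by
  have hgt : ∀ x : ℂ, 1 < ‖x‖ → fderiv ℝ W x = 0 := by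
    intro x hx
    have h1 : W =ᶠ[𝓝 x] fun _ => 0 := by
      filter_upwards [continuous_norm.continuousAt.eventually (lt_mem_nhds hx)] with y hy
      exact h y (le_of_lt hy)
    rw [h1.fderiv_eq]
    simp
  have hc : Tendsto (fun t : ℝ => fderiv ℝ W ((1 + t) • w)) (𝓝[>] 0) (𝓝 (fderiv ℝ W w)) := by
    have h1 : Continuous fun t : ℝ => fderiv ℝ W ((1 + t) • w) :=
      (hW.continuous_fderiv (by norm_num)).comp (by fun_prop)
    have h2 := (h1.tendsto 0).mono_left (nhdsWithin_le_nhds (s := Ioi 0))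
    simpa using h2
  have hz : Tendsto (fun t : ℝ => fderiv ℝ W ((1 + t) • w)) (𝓝[>] 0) (𝓝 0) := by
    refine tendsto_const_nhds.congr' ?_
    filter_upwards [self_mem_nhdsWithin] with t ht
    rw [hgt]
    have ht' : (0 : ℝ) < t := ht
    rw [norm_smul, Real.norm_eq_abs, abs_of_pos (by linarith)]
    nlinarith
  exact tendsto_nhds_unique hc hz

theorem t_REG (hPULL : S_PULL) (hWEAK : S_WEAK) (hROT : S_ROT) (hREP : S_REP) : S_REG := by
  intro φ r lam c v h hD
  obtain ⟨hV, hout, hsm, heq⟩ := hPULL φ r lam c v h hD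
  set V := Vd φ v with hVdef
  obtain ⟨f, hf, hfe⟩ := ext_f h hV lam c
  have hVc : HasCompactSupport V := cs_of fun w hw => (hout w hw).1
  have w1 := hWEAK V f hV hout hsm hf.continuous (fun w hw => by rw [heq w hw, hfe w hw])
  have w2 := hROT V f hV hVc hf w1
  have hLr0 : ∀ w, 1 ≤ ‖w‖ → Lr V w = 0 := by
    intro w hw
    unfold Lr
    rw [(hout w hw).2]
    simp
  have hLc : Continuous (Lr f) := Lr_cont hf
  obtain ⟨M, hM⟩ := (isCompact_closedBall (0 : ℂ) 1).exists_bound_of_continuousOn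
    hLc.continuousOn
  have hM0 : 0 ≤ M := (norm_nonneg _).trans (hM 0 (mem_closedBall_self zero_le_one))
  have hW : ContDiff ℝ 1 (Lr V) := by
    refine hREP (Lr V) ((ball (0 : ℂ) 1).indicator (Lr f)) M (Lr_cont hV) (cs_of hLr0)
      (hLc.measurable.indicator measurableSet_ball) ?_ ?_ ?_
    · intro x
      by_cases hx : x ∈ ball (0 : ℂ) 1
      · rw [indicator_of_mem hx]
        exact hM x (ball_subset_closedBall hx)
      · rw [indicator_of_notMem hx, abs_zero]
        exact hM0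
    · intro x hx
      rw [indicator_of_notMem]
      rw [mem_ball_zero_iff]
      linarith
    · intro ψ hψ
      rw [w2 ψ hψ, ← integral_indicator measurableSet_ball]
      refine integral_congr_ae (Eventually.of_forall fun w => ?_)
      simp only
      by_cases hx : w ∈ ball (0 : ℂ) 1
      · rw [indicator_of_mem hx, indicator_of_mem hx]
      · rw [indicator_of_notMem hx, indicator_of_notMem hx, zero_mul]
  exact ⟨hV, hW, fun w hw => ⟨(hout w hw).1, (hout w hw).2, hLr0 w hw,
    fderiv_zero hW hLr0 w hw⟩, hsm, heq⟩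

end REG

end Pool.Agent.P8H8.SV
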