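import Pool.Agent.R227.SA9

/-!
# Project SV (MP_83fd13_an, Schiffer's conjecture): six crossings and six vertices

Statements of the packages. `φ` is holomorphic and injective in `|w| < r`, `r > 1`, and
`Ω = φ(D)`, `D` the open unit disc; `v` is the solution `u - c` extended by zero
(`Pool.Agent.R227.SA.Dat`).
-/

set_option autoImplicit false

open MeasureTheory Set Filter Metric
open scoped Topology ContDiff ComplexConjugate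

namespace Pool.Agent.P8H8.SV

open Pool.Agent.TH298.Sch (SC dd Lr)
open Pool.Agent.R227.SA (la Dat)

/-- `φ` is holomorphic and injective in `|w| < r`, `r > 1` -/
structure Dom (φ : ℂ → ℂ) (r : ℝ) : Prop where
  hr : 1 < r
  hol : DifferentiableOn ℂ φ (ball 0 r)
  inj : InjOn φ (ball 0 r)

/-- the boundary curve -/
noncomputable def γ (φ : ℂ → ℂ) (t : ℝ) : ℂ := φ (Complex.exp (t * Complex.I))

/-- the outer normal vector of length `|φ'|` -/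
noncomputable def N (φ : ℂ → ℂ) (t : ℝ) : ℂ :=
  Complex.exp (t * Complex.I) * deriv φ (Complex.exp (t * Complex.I))

/-- the infinitesimal rigid motion (Killing field) `z ↦ a + i b z` -/
noncomputable def kf (a : ℂ) (b : ℝ) (z : ℂ) : ℂ := a + b * Complex.I * z

/-- the scalar product in the plane -/
noncomputable def ip (z w : ℂ) : ℝ := (z * conj w).re

/-- `f` has at least `2 n` sign changes on the circle: there are points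
`p 0 < p 1 < ... < p (2 n) = p 0 + 2 π` at which the signs of `f` alternate -/
def AltSigns (n : ℕ) (f : ℝ → ℝ) : Prop :=
  ∃ p : ℕ → ℝ, (∀ i < 2 * n, p i < p (i + 1)) ∧ p (2 * n) = p 0 + 2 * Real.pi ∧
    ∀ i < 2 * n, 0 < (-1) ^ i * f (p i)

/-! ## Regularity at the boundary -/

/-- the solution in the coordinate of the disc, extended by zero -/
noncomputable def Vd (φ : ℂ → ℂ) (v : ℂ → ℝ) (w : ℂ) : ℝ := by
  classical exact if ‖w‖ < 1 then v (φ w) else 0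

/-- LAP: the Laplacian of a composition with a holomorphic function -/
def S_LAP : Prop := ∀ (U : ℂ → ℝ) (f : ℂ → ℂ) (w : ℂ), ContDiffAt ℝ 2 U (f w) → AnalyticAt ℂ f w →
  la (fun x => U (f x)) w = ‖deriv f w‖ ^ 2 * la U (f w)

/-- PULL: the solution in the disc -/
def S_PULL : Prop := ∀ (φ : ℂ → ℂ) (r lam c : ℝ) (v : ℂ → ℝ), Dom φ r →
  Dat (φ '' ball 0 1) lam c v →
  ContDiff ℝ 1 (Vd φ v) ∧ (∀ w, 1 ≤ ‖w‖ → Vd φ v w = 0 ∧ fderiv ℝ (Vd φ v) w = 0) ∧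
  ContDiffOn ℝ ∞ (Vd φ v) (ball 0 1) ∧
  ∀ w ∈ ball (0 : ℂ) 1, la (Vd φ v) w = -lam * ‖deriv φ w‖ ^ 2 * (Vd φ v w + c)

/-- WEAK: the weak form of the equation -/
def S_WEAK : Prop := ∀ (V f : ℂ → ℝ), ContDiff ℝ 1 V →
  (∀ w, 1 ≤ ‖w‖ → V w = 0 ∧ fderiv ℝ V w = 0) → ContDiffOn ℝ ∞ V (ball 0 1) → Continuous f →
  (∀ w ∈ ball (0 : ℂ) 1, la V w = f w) →
  ∀ ψ, SC ψ → ∫ w, V w * la ψ w = ∫ w in ball 0 1, f w * ψ w

/-- ROT: the weak form of the equation of the angular derivative -/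
def S_ROT : Prop := ∀ (V f : ℂ → ℝ), ContDiff ℝ 1 V → HasCompactSupport V → ContDiff ℝ 1 f →
  (∀ ψ, SC ψ → ∫ w, V w * la ψ w = ∫ w in ball 0 1, f w * ψ w) →
  ∀ ψ, SC ψ → ∫ w, Lr V w * la ψ w = ∫ w in ball 0 1, Lr f w * ψ w

/-- REP: compactly supported weak solutions of Poisson's equation with a bounded right hand side
are continuously differentiable (`pot_c1` in `Pool.Agent.R227.SA7`) -/
def S_REP : Prop := ∀ (V g : ℂ → ℝ) (M : ℝ), Continuous V → HasCompactSupport V → Measurable g →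
  (∀ x, |g x| ≤ M) → (∀ x, 1 ≤ ‖x‖ → g x = 0) →
  (∀ ψ, SC ψ → ∫ w, V w * la ψ w = ∫ w, g w * ψ w) → ContDiff ℝ 1 V

/-- REG: the solution and its angular derivative are `C¹` -/
def S_REG : Prop := ∀ (φ : ℂ → ℂ) (r lam c : ℝ) (v : ℂ → ℝ), Dom φ r →
  Dat (φ '' ball 0 1) lam c v →
  ContDiff ℝ 1 (Vd φ v) ∧ ContDiff ℝ 1 (Lr (Vd φ v)) ∧
  (∀ w, 1 ≤ ‖w‖ → Vd φ v w = 0 ∧ fderiv ℝ (Vd φ v) w = 0 ∧ Lr (Vd φ v) w = 0 ∧
    fderiv ℝ (Lr (Vd φ v)) w = 0) ∧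
  ContDiffOn ℝ ∞ (Vd φ v) (ball 0 1) ∧
  ∀ w ∈ ball (0 : ℂ) 1, la (Vd φ v) w = -lam * ‖deriv φ w‖ ^ 2 * (Vd φ v w + c)

/-! ## The cubic identity -/

/-- the derivative of `v` along a Killing field, in the logarithmic coordinate `ζ`, `w = exp ζ` -/
noncomputable def PP (φ : ℂ → ℂ) (v : ℂ → ℝ) (a : ℂ) (b : ℝ) (ζ : ℂ) : ℝ :=
  fderiv ℝ v (φ (Complex.exp ζ)) (kf a b (φ (Complex.exp ζ)))

/-- the derivative of `ζ ↦ φ (exp ζ)` -/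
noncomputable def dF (φ : ℂ → ℂ) (ζ : ℂ) : ℂ := Complex.exp ζ * deriv φ (Complex.exp ζ)

/-- the Killing field in the coordinate `ζ` -/
noncomputable def kz (φ : ℂ → ℂ) (a : ℂ) (b : ℝ) (ζ : ℂ) : ℂ :=
  kf a b (φ (Complex.exp ζ)) / dF φ ζ

/-- HELM: the function `PP` is smooth in the left half-plane and satisfies the Helmholtz equation -/
def S_HELM : Prop := ∀ (φ : ℂ → ℂ) (r lam c : ℝ) (v : ℂ → ℝ) (a : ℂ) (b : ℝ), Dom φ r →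
  Dat (φ '' ball 0 1) lam c v →
  ContDiffOn ℝ ∞ (PP φ v a b) {ζ | ζ.re < 0} ∧
  ∀ ζ : ℂ, ζ.re < 0 → la (PP φ v a b) ζ = -lam * ‖dF φ ζ‖ ^ 2 * PP φ v a b ζ

/-- the flux density -/
noncomputable def flux (φ : ℂ → ℂ) (lam : ℝ) (v : ℂ → ℝ) (a : Fin 3 → ℂ) (b : Fin 3 → ℝ) (ζ : ℂ) :
    ℝ :=
  (kz φ (a 1) (b 1) ζ).re * (dd 1 (PP φ v (a 0) (b 0)) ζ * dd 1 (PP φ v (a 2) (b 2)) ζ
      - dd Complex.I (PP φ v (a 0) (b 0)) ζ * dd Complex.I (PP φ v (a 2) (b 2)) ζ)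
    + (kz φ (a 1) (b 1) ζ).im * (dd 1 (PP φ v (a 0) (b 0)) ζ * dd Complex.I (PP φ v (a 2) (b 2)) ζ
      + dd Complex.I (PP φ v (a 0) (b 0)) ζ * dd 1 (PP φ v (a 2) (b 2)) ζ)
    + lam * ‖dF φ ζ‖ ^ 2 * (kz φ (a 1) (b 1) ζ).re * PP φ v (a 0) (b 0) ζ * PP φ v (a 2) (b 2) ζ

/-- FLUX: the flux through the level lines of `|w|` vanishes -/
def S_FLUX : Prop := ∀ (φ : ℂ → ℂ) (r lam c : ℝ) (v : ℂ → ℝ) (a : Fin 3 → ℂ) (b : Fin 3 → ℝ),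
  Dom φ r → Dat (φ '' ball 0 1) lam c v → ∀ x : ℝ, x < 0 →
  ∫ y in (0 : ℝ)..2 * Real.pi, flux φ lam v a b (x + y * Complex.I) = 0

/-- LIM: the boundary values -/
def S_LIM : Prop := ∀ (φ : ℂ → ℂ) (r lam c : ℝ) (v : ℂ → ℝ) (a : ℂ) (b : ℝ), Dom φ r →
  Dat (φ '' ball 0 1) lam c v → ∀ ε > 0, ∃ δ > 0, ∀ x y : ℝ, -δ < x → x < 0 →
  |PP φ v a b (x + y * Complex.I)| < ε ∧
  |dd Complex.I (PP φ v a b) (x + y * Complex.I)| < ε ∧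
  |dd 1 (PP φ v a b) (x + y * Complex.I) + lam * c * ip (kf a b (γ φ y)) (N φ y)| < ε

/-- CUB: the cubic identity. Since `‖N t‖ dt` is the length element of the boundary, it says
`∫ (K₀·ν) (K₁·ν) (K₂·ν) ds = 0` for any three Killing fields. -/
def S_CUB : Prop := ∀ (φ : ℂ → ℂ) (r lam c : ℝ) (v : ℂ → ℝ), Dom φ r → 0 < lam → c ≠ 0 →
  Dat (φ '' ball 0 1) lam c v → ∀ (a : Fin 3 → ℂ) (b : Fin 3 → ℝ),
  ∫ t in (0 : ℝ)..2 * Real.pi, (∏ i, ip (kf (a i) (b i) (γ φ t)) (N φ t)) / ‖N φ t‖ ^ 2 = 0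

/-! ## Convex domains -/

/-- `Θ` is the direction of the outer normal -/
structure Ang (φ : ℂ → ℂ) (Θ : ℝ → ℝ) : Prop where
  sm : ContDiff ℝ ∞ Θ
  per : ∀ t, Θ (t + 2 * Real.pi) = Θ t + 2 * Real.pi
  eq : ∀ t, N φ t = ‖N φ t‖ * Complex.exp (Θ t * Complex.I)
  der : ∀ t : ℝ, deriv Θ t = (1 + Complex.exp (t * Complex.I) *
    deriv (deriv φ) (Complex.exp (t * Complex.I)) / deriv φ (Complex.exp (t * Complex.I))).re

/-- ANG: existence of the direction function -/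
def S_ANG : Prop := ∀ (φ : ℂ → ℂ) (r : ℝ), Dom φ r → ∃ Θ, Ang φ Θ

/-- CONV: convex domains. -/
def S_CONV : Prop := ∀ (φ : ℂ → ℂ) (r : ℝ) (Θ : ℝ → ℝ), Dom φ r → Ang φ Θ →
  Convex ℝ (φ '' ball 0 1) →
  (∀ s t, ip (γ φ s - γ φ t) (N φ t) ≤ 0) ∧ (∀ t, 0 ≤ deriv Θ t) ∧ StrictMono Θ

/-- SH: the sign pattern of a function with at most `2 n` sign changes -/
def S_SH : Prop := ∀ (n : ℕ) (f : ℝ → ℝ), 1 ≤ n → Continuous f →
  (∀ t, f (t + 2 * Real.pi) = f t) → ¬ AltSigns (n + 1) f →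
  ∃ q : ℕ → ℝ, (∀ i < 2 * n, q i ≤ q (i + 1)) ∧ q (2 * n) = q 0 + 2 * Real.pi ∧
    ∀ i < 2 * n, ∀ t ∈ Ioo (q i) (q (i + 1)), 0 ≤ (-1) ^ i * f t

/-- TRIG: products of `2 n` half-angle sines are trigonometric polynomials of degree `n` -/
def S_TRIG : Prop := ∀ (n : ℕ) (q : ℕ → ℝ), ∃ A B : ℕ → ℝ, ∀ θ : ℝ,
  ∏ i ∈ Finset.range (2 * n), Real.sin ((θ - q i) / 2) =
    ∑ k ∈ Finset.range (n + 1), (A k * Real.cos (k * θ) + B k * Real.sin (k * θ))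

/-- STURM: functions orthogonal to the trigonometric polynomials of degree `n` in `Θ` have at least
`2 n + 2` sign changes -/
def S_STURM : Prop := ∀ (n : ℕ) (f Θ : ℝ → ℝ), 1 ≤ n → Continuous f →
  (∀ t, f (t + 2 * Real.pi) = f t) → ContDiff ℝ 1 Θ → (∀ t, Θ (t + 2 * Real.pi) = Θ t + 2 * Real.pi) →
  (∀ t, 0 ≤ deriv Θ t) → StrictMono Θ →
  (∀ k ≤ n, ∫ t in (0 : ℝ)..2 * Real.pi, f t * Real.cos (k * Θ t) * deriv Θ t = 0) →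
  (∀ k ≤ n, ∫ t in (0 : ℝ)..2 * Real.pi, f t * Real.sin (k * Θ t) * deriv Θ t = 0) →
  AltSigns (n + 1) f ∨ ∀ t, f t = 0

/-- CENTRE: for every curve there is a centre `a` such that the squared distance from `a` is
orthogonal to the first harmonics of the direction of the normal (no convexity is needed) -/
def S_CENTRE : Prop := ∀ (φ : ℂ → ℂ) (r : ℝ) (Θ : ℝ → ℝ), Dom φ r → Ang φ Θ → ∃ a : ℂ,
  (∫ t in (0 : ℝ)..2 * Real.pi, ‖γ φ t - a‖ ^ 2 * Real.cos (Θ t) * deriv Θ t = 0) ∧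
  ∫ t in (0 : ℝ)..2 * Real.pi, ‖γ φ t - a‖ ^ 2 * Real.sin (Θ t) * deriv Θ t = 0

/-- SECOND: the cubic identity kills the second harmonics of the squared distance -/
def S_SECOND : Prop := ∀ (φ : ℂ → ℂ) (r : ℝ) (Θ : ℝ → ℝ), Dom φ r → Ang φ Θ →
  (∀ (a : Fin 3 → ℂ) (b : Fin 3 → ℝ),
    ∫ t in (0 : ℝ)..2 * Real.pi, (∏ i, ip (kf (a i) (b i) (γ φ t)) (N φ t)) / ‖N φ t‖ ^ 2 = 0) →
  ∀ a : ℂ,
  (∫ t in (0 : ℝ)..2 * Real.pi, ‖γ φ t - a‖ ^ 2 * Real.cos (2 * Θ t) * deriv Θ t = 0) ∧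
  ∫ t in (0 : ℝ)..2 * Real.pi, ‖γ φ t - a‖ ^ 2 * Real.sin (2 * Θ t) * deriv Θ t = 0

/-- DISC: a domain whose boundary lies on a circle is a disc -/
def S_DISC : Prop := ∀ (φ : ℂ → ℂ) (r : ℝ) (a : ℂ) (R : ℝ), Dom φ r → 0 < R →
  (∀ t, ‖γ φ t - a‖ = R) → φ '' ball 0 1 = ball a R

/-- ODD: odd harmonics for odd maps -/
def S_ODD : Prop := ∀ (φ : ℂ → ℂ) (r : ℝ) (Θ : ℝ → ℝ), Dom φ r → Ang φ Θ →
  (∀ w ∈ ball (0 : ℂ) r, φ (-w) = -φ w) → ∀ k : ℕ, Odd k →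
  (∫ t in (0 : ℝ)..2 * Real.pi, ‖γ φ t‖ ^ 2 * Real.cos (k * Θ t) * deriv Θ t = 0) ∧
  ∫ t in (0 : ℝ)..2 * Real.pi, ‖γ φ t‖ ^ 2 * Real.sin (k * Θ t) * deriv Θ t = 0

/-! ## Vertices -/

/-- SUPP: a circle that crosses the boundary of a convex domain `2 n` times; the support function
minus the radius also has `2 n` sign changes. Here `‖N‖ = σ` and
`(γ - a) exp (-iΘ) = h + i g`, where `h' = g Θ'` and `g' = σ - h Θ'`. -/
def S_SUPP : Prop := ∀ (φ : ℂ → ℂ) (r : ℝ) (Θ : ℝ → ℝ) (a : ℂ) (R : ℝ) (n : ℕ), Dom φ r → Ang φ Θ →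
  (∀ s t, ip (γ φ s - γ φ t) (N φ t) ≤ 0) → 0 < R → 1 ≤ n →
  AltSigns n (fun t => ‖γ φ t - a‖ - R) →
  AltSigns n (fun t => ((γ φ t - a) * Complex.exp (-(Θ t * Complex.I))).re - R)

/-- BASE: the calculus theorem for sign changes of `(D³ + D) h`, base point version: `t0` is a zero
of `H` with `g t0 < 0 < Θ' t0`, and `H` takes the signs `-, +, -, +, ..., +` at `2 n` points of
`(t0, t0 + 2 π)`. -/
def S_BASE : Prop := ∀ (n : ℕ) (Θ H g σ κ : ℝ → ℝ) (R : ℝ), 2 ≤ n → ContDiff ℝ 2 Θ → StrictMono Θ →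
  (∀ t, 0 ≤ deriv Θ t) → (∀ t, Θ (t + 2 * Real.pi) = Θ t + 2 * Real.pi) →
  (∀ t, HasDerivAt H (g t * deriv Θ t) t) →
  (∀ t, HasDerivAt g (σ t - (H t + R) * deriv Θ t) t) →
  (∀ t, 0 < σ t) → ContDiff ℝ 1 σ → (∀ t, κ t = deriv Θ t / σ t) →
  (∀ t, H (t + 2 * Real.pi) = H t) → (∀ t, g (t + 2 * Real.pi) = g t) →
  (∀ t, σ (t + 2 * Real.pi) = σ t) →
  ∀ t0 : ℝ, H t0 = 0 → g t0 < 0 → 0 < deriv Θ t0 →
  (∃ p : ℕ → ℝ, (∀ i < 2 * n - 1, p i < p (i + 1)) ∧ t0 < p 0 ∧ p (2 * n - 1) < t0 + 2 * Real.pi ∧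
    ∀ i < 2 * n, (-1) ^ i * H (p i) < 0) →
  AltSigns n (deriv κ)

/-- VERT: the calculus theorem -/
def S_VERT : Prop := ∀ (n : ℕ) (Θ H g σ κ : ℝ → ℝ) (R : ℝ), 2 ≤ n → ContDiff ℝ 2 Θ → StrictMono Θ →
  (∀ t, 0 ≤ deriv Θ t) → (∀ t, Θ (t + 2 * Real.pi) = Θ t + 2 * Real.pi) →
  (∀ t, HasDerivAt H (g t * deriv Θ t) t) →
  (∀ t, HasDerivAt g (σ t - (H t + R) * deriv Θ t) t) →
  (∀ t, 0 < σ t) → ContDiff ℝ 1 σ → (∀ t, κ t = deriv Θ t / σ t) →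
  (∀ t, H (t + 2 * Real.pi) = H t) → (∀ t, g (t + 2 * Real.pi) = g t) →
  (∀ t, σ (t + 2 * Real.pi) = σ t) →
  AltSigns n H → AltSigns n (deriv κ)

end Pool.Agent.P8H8.SV
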