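import Pool.Agent.P8H8.SV.Core

/-!
# Project SV: assembly
-/

set_option autoImplicit false

open MeasureTheory Set Filter Metric
open scoped Topology ContDiff ComplexConjugate

namespace Pool.Agent.P8H8.SV

open Pool.Agent.R227.SA (la Dat dat_of_sol)
open Pool.Agent.TH298.Sch (Sol)

lemma Dom.interior_closure {φ : ℂ → ℂ} {r : ℝ} (h : Dom φ r) :
    interior (closure (φ '' ball 0 1)) = φ '' ball 0 1 := by
  have hr := h.hr
  have hcont : ContinuousOn φ (closedBall 0 1) :=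
    h.hol.continuousOn.mono (closedBall_subset_ball hr)
  have hcomp : IsCompact (φ '' closedBall 0 1) :=
    (isCompact_closedBall (0 : ℂ) 1).image_of_continuousOn hcont
  have hcl : closure (φ '' ball 0 1) ⊆ φ '' closedBall 0 1 :=
    closure_minimal (image_mono ball_subset_closedBall) hcomp.isClosed
  have hop : IsOpen (φ '' ball 0 1) := by
    have han : AnalyticOnNhd ℂ φ (ball 0 r) := h.hol.analyticOnNhd isOpen_ball
    rcases (han.mono (ball_subset_ball hr.le)).is_constant_or_isOpen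
      (convex_ball (0 : ℂ) 1).isPreconnected with hc | hc
    · exfalso
      obtain ⟨w, hw⟩ := hc
      have h1 := hw 0 (mem_ball_self one_pos)
      have h2 := hw (1 / 2) (by simp [mem_ball_zero_iff]; norm_num)
      have h3 := h.inj (mem_ball_self (by linarith)) (by
        rw [mem_ball_zero_iff]; norm_num; linarith) (h1.trans h2.symm)
      norm_num at h3
    · exact hc (ball 0 1) Subset.rfl isOpen_ball
  apply Subset.antisymm
  · intro z hz
    have hz1 : z ∈ φ '' closedBall 0 1 := hcl (interior_subset hz)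
    obtain ⟨w, hw, rfl⟩ := hz1
    rw [mem_closedBall_zero_iff] at hw
    rcases hw.lt_or_eq with hlt | heq
    · exact ⟨w, mem_ball_zero_iff.2 hlt, rfl⟩
    · exfalso
      have hwr : w ∈ ball (0 : ℂ) r := by rw [mem_ball_zero_iff]; linarith
      have hca : ContinuousAt φ w := (h.hol.differentiableAt (isOpen_ball.mem_nhds hwr)).continuousAt
      have hnh : ∀ᶠ x in 𝓝 w, φ x ∈ interior (closure (φ '' ball 0 1)) ∧ x ∈ ball (0 : ℂ) r :=
        (hca.eventually (isOpen_interior.mem_nhds hz)).and (isOpen_ball.mem_nhds hwr)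
      obtain ⟨ε, hε, hball⟩ := Metric.eventually_nhds_iff_ball.1 hnh
      have hx : w + (ε / 2 : ℝ) • w ∈ ball w ε := by
        rw [mem_ball, dist_eq_norm, add_sub_cancel_left, norm_smul, heq, mul_one,
          Real.norm_eq_abs, abs_of_pos (by positivity)]
        linarith
      obtain ⟨hx1, hx2⟩ := hball _ hx
      obtain ⟨y, hy, hyx⟩ := hcl (interior_subset hx1)
      have h5 := h.inj (closedBall_subset_ball hr hy) hx2 hyx
      rw [mem_closedBall_zero_iff, h5] at hy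
      have h6 : ‖w + (ε / 2 : ℝ) • w‖ = 1 + ε / 2 := by
        have : w + (ε / 2 : ℝ) • w = (1 + ε / 2 : ℝ) • w := by rw [add_smul, one_smul]
        rw [this, norm_smul, heq, mul_one, Real.norm_eq_abs, abs_of_pos (by positivity)]
      rw [h6] at hy
      linarith
  · exact interior_maximal subset_closure hop

/-- the cubic identity for weak solutions -/
theorem cubic (hCUB : S_CUB) (φ : ℂ → ℂ) (r lam c : ℝ) (u : ℂ → ℝ) (G : ℂ → ℂ) (h : Dom φ r)
    (hlam : 0 < lam) (hS : Sol (φ '' ball 0 1) lam c u G) (hc : c ≠ 0)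
    (a : Fin 3 → ℂ) (b : Fin 3 → ℝ) :
    ∫ t in (0 : ℝ)..2 * Real.pi, (∏ i, ip (kf (a i) (b i) (γ φ t)) (N φ t)) / ‖N φ t‖ ^ 2 = 0 := by
  have hcont : ContinuousOn φ (closedBall 0 1) :=
    h.hol.continuousOn.mono (closedBall_subset_ball h.hr)
  have hb : Bornology.IsBounded (φ '' ball 0 1) :=
    ((isCompact_closedBall (0 : ℂ) 1).image_of_continuousOn hcont).isBounded.subset
      (image_mono ball_subset_closedBall)
  have hop : IsOpen (φ '' ball 0 1) := by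
    rw [← h.interior_closure]
    exact isOpen_interior
  obtain ⟨v, hv⟩ := dat_of_sol hop hb h.interior_closure hlam hS
  exact hCUB φ r lam c v h hlam hc hv a b

/-- convex domains -/
theorem convex_main (hANG : S_ANG) (hCONV : S_CONV) (hST : S_STURM) (hCEN : S_CENTRE)
    (hSEC : S_SECOND) (hDISC : S_DISC) (hSUPP : S_SUPP) (hVERT : S_VERT)
    (φ : ℂ → ℂ) (r : ℝ) (h : Dom φ r) (hconv : Convex ℝ (φ '' ball 0 1))
    (hcub : ∀ (a : Fin 3 → ℂ) (b : Fin 3 → ℝ),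
      ∫ t in (0 : ℝ)..2 * Real.pi, (∏ i, ip (kf (a i) (b i) (γ φ t)) (N φ t)) / ‖N φ t‖ ^ 2 = 0)
    (hnd : ¬ ∃ (p : ℂ) (r0 : ℝ), 0 < r0 ∧ φ '' ball 0 1 = ball p r0) :
    (∃ (a : ℂ) (R : ℝ), 0 < R ∧ AltSigns 3 (fun t => ‖γ φ t - a‖ - R)) ∧
    AltSigns 3 (deriv (curv φ)) := by
  obtain ⟨Θ, hA⟩ := hANG φ r h
  obtain ⟨hsup, hΘ, hmono⟩ := hCONV φ r Θ h hA hconv
  obtain ⟨a, ha1, ha2⟩ := hCEN φ r Θ h hA
  obtain ⟨hb1, hb2⟩ := hSEC φ r Θ h hA hcub a
  obtain ⟨R, hR, hcr⟩ := cross_of_orth hST hDISC h hA hΘ hmono a 2 (by norm_num) (by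
    intro k hk1 hk2
    interval_cases k
    · simp only [Nat.cast_one, one_mul]
      exact ⟨ha1, ha2⟩
    · exact ⟨by exact_mod_cast hb1, by exact_mod_cast hb2⟩)
  rcases hcr with hcr | hcr
  · exact ⟨⟨a, R, hR, hcr⟩, vert_of_cross hSUPP hVERT h hA hsup hΘ hmono a R hR 3 (by norm_num) hcr⟩
  · exact absurd ⟨a, R, hR, hcr⟩ hnd

/-- convex domains which are symmetric about the origin -/
theorem odd_main (hANG : S_ANG) (hCONV : S_CONV) (hST : S_STURM)
    (hSEC : S_SECOND) (hDISC : S_DISC) (hODD : S_ODD) (hSUPP : S_SUPP) (hVERT : S_VERT)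
    (φ : ℂ → ℂ) (r : ℝ) (h : Dom φ r) (hconv : Convex ℝ (φ '' ball 0 1))
    (hcub : ∀ (a : Fin 3 → ℂ) (b : Fin 3 → ℝ),
      ∫ t in (0 : ℝ)..2 * Real.pi, (∏ i, ip (kf (a i) (b i) (γ φ t)) (N φ t)) / ‖N φ t‖ ^ 2 = 0)
    (hodd : ∀ w ∈ ball (0 : ℂ) r, φ (-w) = -φ w)
    (hnd : ¬ ∃ (p : ℂ) (r0 : ℝ), 0 < r0 ∧ φ '' ball 0 1 = ball p r0) :
    (∃ R : ℝ, 0 < R ∧ AltSigns 4 (fun t => ‖γ φ t‖ - R)) ∧ AltSigns 4 (deriv (curv φ)) := by
  obtain ⟨Θ, hA⟩ := hANG φ r h
  obtain ⟨hsup, hΘ, hmono⟩ := hCONV φ r Θ h hA hconv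
  obtain ⟨hb1, hb2⟩ := hSEC φ r Θ h hA hcub 0
  have h1 := hODD φ r Θ h hA hodd 1 (by decide)
  have h3 := hODD φ r Θ h hA hodd 3 (by decide)
  obtain ⟨R, hR, hcr⟩ := cross_of_orth hST hDISC h hA hΘ hmono 0 3 (by norm_num) (by
    intro k hk1 hk2
    simp only [sub_zero] at hb1 hb2 ⊢
    interval_cases k
    · exact h1
    · exact ⟨by exact_mod_cast hb1, by exact_mod_cast hb2⟩
    · exact h3)
  rcases hcr with hcr | hcr
  · refine ⟨⟨R, hR, ?_⟩, vert_of_cross hSUPP hVERT h hA hsup hΘ hmono 0 R hR 4 (by norm_num) hcr⟩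
    simpa only [sub_zero] using hcr
  · exact absurd ⟨0, R, hR, hcr⟩ hnd

end Pool.Agent.P8H8.SV
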