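import Pool.Agent.P8H8.SV.Fin0
import Pool.Agent.P8H42.SV.Weak

/-!
# Project SV: the main theorem

Packages: helper8 (BASE, LIM, REG, PULL, assembly), helper94 (LAP, HELM, FLUX), helper93 (CUB, VERT),
helper7 (ANG, CONV, DISC), helper69 (SH, TRIG, STURM), helper76 (CENTRE, SECOND, ODD, SUPP),
helper42 (REP, ROT, WEAK).
-/

set_option autoImplicit false

open MeasureTheory Set Filter Metric
open scoped Topology ContDiff ComplexConjugate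

namespace Pool.Agent.P8H8.SV

open Pool.Agent.TH298.Sch (Sol)

theorem fin_main (φ : ℂ → ℂ) (r lam c : ℝ) (u : ℂ → ℝ) (G : ℂ → ℂ) (h : Dom φ r) (hlam : 0 < lam)
    (hS : Sol (φ '' ball 0 1) lam c u G) (hu0 : ¬ (u =ᵐ[volume.restrict (φ '' ball 0 1)] 0)) :
    (∀ (a : Fin 3 → ℂ) (b : Fin 3 → ℝ), ∫ t in (0 : ℝ)..2 * Real.pi,
      (∏ i, ip (kf (a i) (b i) (γ φ t)) (N φ t)) / ‖N φ t‖ ^ 2 = 0) ∧
    (Convex ℝ (φ '' ball 0 1) → (¬ ∃ (p : ℂ) (r0 : ℝ), 0 < r0 ∧ φ '' ball 0 1 = ball p r0) →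
      (∃ (a : ℂ) (R : ℝ), 0 < R ∧ AltSigns 3 (fun t => ‖γ φ t - a‖ - R)) ∧
      AltSigns 3 (deriv (curv φ))) ∧
    (Convex ℝ (φ '' ball 0 1) → (∀ w ∈ ball (0 : ℂ) r, φ (-w) = -φ w) →
      (¬ ∃ (p : ℂ) (r0 : ℝ), 0 < r0 ∧ φ '' ball 0 1 = ball p r0) →
      (∃ R : ℝ, 0 < R ∧ AltSigns 4 (fun t => ‖γ φ t‖ - R)) ∧
      AltSigns 4 (deriv (curv φ))) :=
  fin_main0 Pool.Agent.P8H42.SV.t_WEAK φ r lam c u G h hlam hS hu0

end Pool.Agent.P8H8.SV
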