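import Pool.Agent.P8H8.SV.Stm

/-!
# Project SV, package BASE: sign changes of the derivative of the curvature
-/

set_option autoImplicit false

open Set Filter
open scoped Topology ContDiff

namespace Pool.Agent.P8H8.SV

/-- the data of the calculus theorem -/
structure BD (Θ H g σ κ : ℝ → ℝ) (R t0 : ℝ) : Prop where
  sm : ContDiff ℝ 2 Θ
  mono : StrictMono Θ
  nn : ∀ t, 0 ≤ deriv Θ t
  per : ∀ t, Θ (t + 2 * Real.pi) = Θ t + 2 * Real.pi
  dH : ∀ t, HasDerivAt H (g t * deriv Θ t) t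
  dg : ∀ t, HasDerivAt g (σ t - (H t + R) * deriv Θ t) t
  σpos : ∀ t, 0 < σ t
  σsm : ContDiff ℝ 1 σ
  κeq : ∀ t, κ t = deriv Θ t / σ t
  Hper : ∀ t, H (t + 2 * Real.pi) = H t
  gper : ∀ t, g (t + 2 * Real.pi) = g t
  σper : ∀ t, σ (t + 2 * Real.pi) = σ t
  H0 : H t0 = 0
  g0 : g t0 < 0
  Θ0 : 0 < deriv Θ t0

/-- the angle from the base point -/
noncomputable def ff (Θ : ℝ → ℝ) (t0 t : ℝ) : ℝ := Θ t - Θ t0

/-- `w` -/
noncomputable def ww (Θ : ℝ → ℝ) (t0 t : ℝ) : ℝ := 1 - Real.cos (ff Θ t0 t)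

/-- `Q = w q` -/
noncomputable def QQ (Θ H g : ℝ → ℝ) (R t0 t : ℝ) : ℝ :=
  R * ww Θ t0 t + g t * Real.sin (ff Θ t0 t) - H t * Real.cos (ff Θ t0 t)

/-- `D = w - κ Q` -/
noncomputable def DD (Θ H g κ : ℝ → ℝ) (R t0 t : ℝ) : ℝ := ww Θ t0 t - κ t * QQ Θ H g R t0 t

/-- the cotangent of half of the angle -/
noncomputable def CC (Θ : ℝ → ℝ) (t0 t : ℝ) : ℝ := Real.sin (ff Θ t0 t) / ww Θ t0 t

/-- `Ψ` -/
noncomputable def PS (Θ H g : ℝ → ℝ) (t0 t : ℝ) : ℝ := g t - H t * CC Θ t0 t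

variable {Θ H g σ κ : ℝ → ℝ} {R t0 : ℝ}

namespace BD

lemma hΘ (b : BD Θ H g σ κ R t0) (t : ℝ) : HasDerivAt Θ (deriv Θ t) t :=
  (b.sm.differentiable (by norm_num) t).hasDerivAt

lemma hff (b : BD Θ H g σ κ R t0) (t : ℝ) : HasDerivAt (ff Θ t0) (deriv Θ t) t :=
  (b.hΘ t).sub_const _

lemma hww (b : BD Θ H g σ κ R t0) (t : ℝ) :
    HasDerivAt (ww Θ t0) (deriv Θ t * Real.sin (ff Θ t0 t)) t := by
  have := ((b.hff t).cos).const_sub 1
  refine this.congr_deriv ?_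
  ring

lemma hQQ (b : BD Θ H g σ κ R t0) (t : ℝ) :
    HasDerivAt (QQ Θ H g R t0) (σ t * Real.sin (ff Θ t0 t)) t := by
  have h1 := ((b.hww t).const_mul R)
  have h2 := (b.dg t).mul (b.hff t).sin
  have h3 := (b.dH t).mul (b.hff t).cos
  refine ((h1.add h2).sub h3).congr_deriv ?_
  ring

lemma κnn (b : BD Θ H g σ κ R t0) (t : ℝ) : 0 ≤ κ t := by
  rw [b.κeq]
  exact div_nonneg (b.nn t) (b.σpos t).le

lemma κσ (b : BD Θ H g σ κ R t0) (t : ℝ) : κ t * σ t = deriv Θ t := by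
  rw [b.κeq, div_mul_cancel₀ _ (b.σpos t).ne']

lemma κper (b : BD Θ H g σ κ R t0) (t : ℝ) : κ (t + 2 * Real.pi) = κ t := by
  have h1 : deriv Θ (t + 2 * Real.pi) = deriv Θ t := by
    have h2 : HasDerivAt (fun s => Θ (s + 2 * Real.pi)) (deriv Θ (t + 2 * Real.pi)) t := by
      have := (b.hΘ (t + 2 * Real.pi)).comp_add_const t (2 * Real.pi)
      exact this
    have h3 : HasDerivAt (fun s => Θ (s + 2 * Real.pi)) (deriv Θ t) t := by
      have : (fun s => Θ (s + 2 * Real.pi)) = fun s => Θ s + 2 * Real.pi := funext b.per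
      rw [this]
      exact (b.hΘ t).add_const _
    exact h2.unique h3
  rw [b.κeq, b.κeq, b.σper, h1]

lemma κdiff (b : BD Θ H g σ κ R t0) : Differentiable ℝ κ := by
  have h1 : ContDiff ℝ 1 (deriv Θ) := by
    have := b.sm.iterate_deriv' 1 1
    simpa using this
  have e : κ = fun t => deriv Θ t / σ t := funext b.κeq
  rw [e]
  exact (h1.differentiable (by norm_num)).div (b.σsm.differentiable (by norm_num))
    fun t => (b.σpos t).ne'

lemma dκper (b : BD Θ H g σ κ R t0) (t : ℝ) : deriv κ (t + 2 * Real.pi) = deriv κ t := by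
  have h2 : HasDerivAt (fun s => κ (s + 2 * Real.pi)) (deriv κ (t + 2 * Real.pi)) t :=
    ((b.κdiff (t + 2 * Real.pi)).hasDerivAt).comp_add_const t (2 * Real.pi)
  have h3 : HasDerivAt (fun s => κ (s + 2 * Real.pi)) (deriv κ t) t := by
    have : (fun s => κ (s + 2 * Real.pi)) = κ := funext b.κper
    rw [this]
    exact (b.κdiff t).hasDerivAt
  exact h2.unique h3

lemma wnn (t : ℝ) : 0 ≤ ww Θ t0 t := by
  unfold ww
  linarith [Real.cos_le_one (ff Θ t0 t)]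

/-- where `D ≤ 0` and the curvature does not vanish -/
lemma κpos_of_neg (b : BD Θ H g σ κ R t0) {t : ℝ} (h : DD Θ H g κ R t0 t < 0) : 0 < κ t := by
  rcases (b.κnn t).lt_or_eq with h0 | h0
  · exact h0
  · exfalso
    unfold DD at h
    rw [← h0, zero_mul, sub_zero] at h
    linarith [wnn (Θ := Θ) (t0 := t0) t]

/-- the derivative of `Φ = w / κ - Q` -/
lemma hΦ (b : BD Θ H g σ κ R t0) {t : ℝ} (h : κ t ≠ 0) :
    HasDerivAt (fun t => ww Θ t0 t / κ t - QQ Θ H g R t0 t)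
      (-(ww Θ t0 t * deriv κ t / κ t ^ 2)) t := by
  have h1 := (b.hww t).div (b.κdiff t).hasDerivAt h
  refine (h1.sub (b.hQQ t)).congr_deriv ?_
  rw [← b.κσ t]
  field_simp
  ring

lemma up (b : BD Θ H g σ κ R t0) {t1 t2 : ℝ} (h12 : t1 < t2) (hκ : 0 < κ t1)
    (h1 : DD Θ H g κ R t0 t1 ≤ 0) (h2 : 0 ≤ DD Θ H g κ R t0 t2)
    (hne : DD Θ H g κ R t0 t1 < 0 ∨ 0 < DD Θ H g κ R t0 t2) : ∃ s ∈ Ioo t1 t2, deriv κ s < 0 := by
  by_contra hcon
  push Not at hcon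
  have hmon : MonotoneOn κ (Icc t1 t2) := by
    refine monotoneOn_of_deriv_nonneg (convex_Icc _ _) b.κdiff.continuous.continuousOn
      b.κdiff.differentiableOn fun s hs => ?_
    rw [interior_Icc] at hs
    exact hcon s hs
  have hpos : ∀ s ∈ Icc t1 t2, 0 < κ s := fun s hs =>
    hκ.trans_le (hmon (left_mem_Icc.2 h12.le) hs hs.1)
  have hanti : AntitoneOn (fun t => ww Θ t0 t / κ t - QQ Θ H g R t0 t) (Icc t1 t2) := by
    refine antitoneOn_of_deriv_nonpos (convex_Icc _ _) ?_ ?_ fun s hs => ?_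
    · intro s hs
      exact (b.hΦ (hpos s hs).ne').continuousAt.continuousWithinAt
    · intro s hs
      rw [interior_Icc] at hs
      exact (b.hΦ (hpos s (Ioo_subset_Icc_self hs)).ne').differentiableAt.differentiableWithinAt
    · rw [interior_Icc] at hs
      rw [(b.hΦ (hpos s (Ioo_subset_Icc_self hs)).ne').deriv]
      have := hcon s hs
      have h3 := wnn (Θ := Θ) (t0 := t0) s
      have : 0 ≤ ww Θ t0 s * deriv κ s / κ s ^ 2 := by positivity
      linarith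
  have h3 := hanti (left_mem_Icc.2 h12.le) (right_mem_Icc.2 h12.le) h12.le
  simp only at h3
  have e : ∀ s ∈ Icc t1 t2, DD Θ H g κ R t0 s = κ s * (ww Θ t0 s / κ s - QQ Θ H g R t0 s) := by
    intro s hs
    unfold DD
    have := (hpos s hs).ne'
    field_simp
  have e1 := e t1 (left_mem_Icc.2 h12.le)
  have e2 := e t2 (right_mem_Icc.2 h12.le)
  have p1 := hpos t1 (left_mem_Icc.2 h12.le)
  have p2 := hpos t2 (right_mem_Icc.2 h12.le)
  have a1 : ww Θ t0 t1 / κ t1 - QQ Θ H g R t0 t1 ≤ 0 := by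
    by_contra hc
    push Not at hc
    have := mul_pos p1 hc
    linarith
  have a2 : 0 ≤ ww Θ t0 t2 / κ t2 - QQ Θ H g R t0 t2 := by
    by_contra hc
    push Not at hc
    have := mul_neg_of_pos_of_neg p2 hc
    linarith
  have a3 : ww Θ t0 t1 / κ t1 - QQ Θ H g R t0 t1 = 0 := by linarith
  have a4 : ww Θ t0 t2 / κ t2 - QQ Θ H g R t0 t2 = 0 := by linarith
  rw [a3, mul_zero] at e1
  rw [a4, mul_zero] at e2
  rcases hne with h | h <;> linarith

lemma down (b : BD Θ H g σ κ R t0) {t1 t2 : ℝ} (h12 : t1 < t2) (hκ : 0 < κ t2)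
    (h1 : 0 ≤ DD Θ H g κ R t0 t1) (h2 : DD Θ H g κ R t0 t2 ≤ 0)
    (hne : 0 < DD Θ H g κ R t0 t1 ∨ DD Θ H g κ R t0 t2 < 0) : ∃ s ∈ Ioo t1 t2, 0 < deriv κ s := by
  by_contra hcon
  push Not at hcon
  have hmon : AntitoneOn κ (Icc t1 t2) := by
    refine antitoneOn_of_deriv_nonpos (convex_Icc _ _) b.κdiff.continuous.continuousOn
      b.κdiff.differentiableOn fun s hs => ?_
    rw [interior_Icc] at hs
    exact hcon s hs
  have hpos : ∀ s ∈ Icc t1 t2, 0 < κ s := fun s hs =>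
    hκ.trans_le (hmon hs (right_mem_Icc.2 h12.le) hs.2)
  have hanti : MonotoneOn (fun t => ww Θ t0 t / κ t - QQ Θ H g R t0 t) (Icc t1 t2) := by
    refine monotoneOn_of_deriv_nonneg (convex_Icc _ _) ?_ ?_ fun s hs => ?_
    · intro s hs
      exact (b.hΦ (hpos s hs).ne').continuousAt.continuousWithinAt
    · intro s hs
      rw [interior_Icc] at hs
      exact (b.hΦ (hpos s (Ioo_subset_Icc_self hs)).ne').differentiableAt.differentiableWithinAt
    · rw [interior_Icc] at hs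
      rw [(b.hΦ (hpos s (Ioo_subset_Icc_self hs)).ne').deriv]
      have h4 : 0 ≤ -deriv κ s := by linarith [hcon s hs]
      have h3 := wnn (Θ := Θ) (t0 := t0) s
      have : 0 ≤ ww Θ t0 s * (-deriv κ s) / κ s ^ 2 := by positivity
      have e : -(ww Θ t0 s * deriv κ s / κ s ^ 2) = ww Θ t0 s * (-deriv κ s) / κ s ^ 2 := by ring
      rw [e]
      exact this
  have h3 := hanti (left_mem_Icc.2 h12.le) (right_mem_Icc.2 h12.le) h12.le
  simp only at h3
  have e : ∀ s ∈ Icc t1 t2, DD Θ H g κ R t0 s = κ s * (ww Θ t0 s / κ s - QQ Θ H g R t0 s) := by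
    intro s hs
    unfold DD
    have := (hpos s hs).ne'
    field_simp
  have e1 := e t1 (left_mem_Icc.2 h12.le)
  have e2 := e t2 (right_mem_Icc.2 h12.le)
  have p1 := hpos t1 (left_mem_Icc.2 h12.le)
  have p2 := hpos t2 (right_mem_Icc.2 h12.le)
  have a1 : 0 ≤ ww Θ t0 t1 / κ t1 - QQ Θ H g R t0 t1 := by
    by_contra hc
    push Not at hc
    have := mul_neg_of_pos_of_neg p1 hc
    linarith
  have a2 : ww Θ t0 t2 / κ t2 - QQ Θ H g R t0 t2 ≤ 0 := by
    by_contra hc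
    push Not at hc
    have := mul_pos p2 hc
    linarith
  have a3 : ww Θ t0 t1 / κ t1 - QQ Θ H g R t0 t1 = 0 := by linarith
  have a4 : ww Θ t0 t2 / κ t2 - QQ Θ H g R t0 t2 = 0 := by linarith
  rw [a3, mul_zero] at e1
  rw [a4, mul_zero] at e2
  rcases hne with h | h <;> linarith

/-! ### inside the period -/

lemma ff_mem (b : BD Θ H g σ κ R t0) {t : ℝ} (ht : t ∈ Ioo t0 (t0 + 2 * Real.pi)) :
    ff Θ t0 t ∈ Ioo (0 : ℝ) (2 * Real.pi) := by
  have h1 := b.mono ht.1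
  have h2 := b.mono ht.2
  rw [b.per] at h2
  unfold ff
  constructor <;> linarith

lemma wpos (b : BD Θ H g σ κ R t0) {t : ℝ} (ht : t ∈ Ioo t0 (t0 + 2 * Real.pi)) :
    0 < ww Θ t0 t := by
  have h := b.ff_mem ht
  rcases (wnn (Θ := Θ) (t0 := t0) t).lt_or_eq with h0 | h0
  · exact h0
  · exfalso
    have h1 : Real.cos (ff Θ t0 t) = 1 := by unfold ww at h0; linarith
    have h2 := (Real.cos_eq_one_iff_of_lt_of_lt (by linarith [h.1, Real.pi_pos]) h.2).1 h1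
    linarith [h.1]

lemma hCC (b : BD Θ H g σ κ R t0) {t : ℝ} (ht : t ∈ Ioo t0 (t0 + 2 * Real.pi)) :
    HasDerivAt (CC Θ t0) (-(deriv Θ t / ww Θ t0 t)) t := by
  have hw := (b.wpos ht).ne'
  refine ((b.hff t).sin.div (b.hww t) hw).congr_deriv ?_
  have e : Real.sin (ff Θ t0 t) ^ 2 = 1 - Real.cos (ff Θ t0 t) ^ 2 := by
    rw [Real.sin_sq]
  have e2 : ww Θ t0 t = 1 - Real.cos (ff Θ t0 t) := rfl
  field_simp
  rw [e2]
  linear_combination (-(deriv Θ t)) * e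

lemma CC_anti (b : BD Θ H g σ κ R t0) {s t : ℝ} (hs : s ∈ Ioo t0 (t0 + 2 * Real.pi))
    (ht : t ∈ Ioo t0 (t0 + 2 * Real.pi)) (hst : s < t) : CC Θ t0 t < CC Θ t0 s := by
  have h1 := b.ff_mem hs
  have h2 := b.ff_mem ht
  have h3 : ff Θ t0 s < ff Θ t0 t := by
    have := b.mono hst
    unfold ff
    linarith
  have w1 := b.wpos hs
  have w2 := b.wpos ht
  unfold CC
  rw [div_lt_div_iff₀ w2 w1]
  have e : Real.sin (ff Θ t0 s) * ww Θ t0 t - Real.sin (ff Θ t0 t) * ww Θ t0 s =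
      4 * Real.sin (ff Θ t0 s / 2) * Real.sin (ff Θ t0 t / 2) *
        Real.sin (ff Θ t0 t / 2 - ff Θ t0 s / 2) := by
    unfold ww
    rw [Real.sin_sub]
    have a1 : Real.sin (ff Θ t0 s) = 2 * Real.sin (ff Θ t0 s / 2) * Real.cos (ff Θ t0 s / 2) := by
      rw [← Real.sin_two_mul]; congr 1; ring
    have a2 : Real.sin (ff Θ t0 t) = 2 * Real.sin (ff Θ t0 t / 2) * Real.cos (ff Θ t0 t / 2) := by
      rw [← Real.sin_two_mul]; congr 1; ring
    have a3 : Real.cos (ff Θ t0 s) = 1 - 2 * Real.sin (ff Θ t0 s / 2) ^ 2 := by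
      have : Real.cos (2 * (ff Θ t0 s / 2)) = 1 - 2 * Real.sin (ff Θ t0 s / 2) ^ 2 := by
        rw [Real.cos_two_mul, Real.cos_sq']; ring
      rw [← this]; congr 1; ring
    have a4 : Real.cos (ff Θ t0 t) = 1 - 2 * Real.sin (ff Θ t0 t / 2) ^ 2 := by
      have : Real.cos (2 * (ff Θ t0 t / 2)) = 1 - 2 * Real.sin (ff Θ t0 t / 2) ^ 2 := by
        rw [Real.cos_two_mul, Real.cos_sq']; ring
      rw [← this]; congr 1; ring
    rw [a1, a2, a3, a4]
    ring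
  have p1 : 0 < Real.sin (ff Θ t0 s / 2) :=
    Real.sin_pos_of_pos_of_lt_pi (by linarith [h1.1]) (by linarith [h1.2])
  have p2 : 0 < Real.sin (ff Θ t0 t / 2) :=
    Real.sin_pos_of_pos_of_lt_pi (by linarith [h2.1]) (by linarith [h2.2])
  have p3 : 0 < Real.sin (ff Θ t0 t / 2 - ff Θ t0 s / 2) :=
    Real.sin_pos_of_pos_of_lt_pi (by linarith) (by linarith [h1.1, h2.2, Real.pi_pos])
  have p4 : 0 < 4 * Real.sin (ff Θ t0 s / 2) * Real.sin (ff Θ t0 t / 2) *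
        Real.sin (ff Θ t0 t / 2 - ff Θ t0 s / 2) := by positivity
  linarith

/-- the derivative of `Y = H / w` -/
lemma hY (b : BD Θ H g σ κ R t0) {t : ℝ} (ht : t ∈ Ioo t0 (t0 + 2 * Real.pi)) :
    HasDerivAt (fun t => H t / ww Θ t0 t) (PS Θ H g t0 t * (deriv Θ t / ww Θ t0 t)) t := by
  have hw := (b.wpos ht).ne'
  refine ((b.dH t).div (b.hww t) hw).congr_deriv ?_
  unfold PS CC
  field_simp

/-- the derivative of `Ψ` -/
lemma hPS (b : BD Θ H g σ κ R t0) {t : ℝ} (ht : t ∈ Ioo t0 (t0 + 2 * Real.pi)) :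
    HasDerivAt (PS Θ H g t0) (σ t * DD Θ H g κ R t0 t / ww Θ t0 t) t := by
  have hw := (b.wpos ht).ne'
  refine ((b.dg t).sub ((b.dH t).mul (b.hCC ht))).congr_deriv ?_
  unfold DD QQ CC
  have e1 : σ t * (ww Θ t0 t - κ t * (R * ww Θ t0 t + g t * Real.sin (ff Θ t0 t)
      - H t * Real.cos (ff Θ t0 t))) = σ t * ww Θ t0 t - deriv Θ t * (R * ww Θ t0 t
      + g t * Real.sin (ff Θ t0 t) - H t * Real.cos (ff Θ t0 t)) := by
    rw [← b.κσ t]; ring
  rw [e1]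
  have e2 : Real.cos (ff Θ t0 t) = 1 - ww Θ t0 t := by unfold ww; ring
  rw [e2]
  field_simp
  ring

/-- `E = q - R + x Ψ`, the value at `x` of the tangent line at the point `t` -/
lemma hE (b : BD Θ H g σ κ R t0) (x : ℝ) {t : ℝ} (ht : t ∈ Ioo t0 (t0 + 2 * Real.pi)) :
    HasDerivAt (fun t => QQ Θ H g R t0 t / ww Θ t0 t - R + x * PS Θ H g t0 t)
      ((x + CC Θ t0 t) * (σ t * DD Θ H g κ R t0 t / ww Θ t0 t)) t := by
  have hw := (b.wpos ht).ne'
  have h1 := (((b.hQQ t).div (b.hww t) hw).sub_const R).add ((b.hPS ht).const_mul x)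
  refine h1.congr_deriv ?_
  unfold CC DD
  rw [← b.κσ t]
  field_simp
  ring

lemma E_zero (b : BD Θ H g σ κ R t0) {t : ℝ} (ht : t ∈ Ioo t0 (t0 + 2 * Real.pi))
    (h : H t = 0) : QQ Θ H g R t0 t / ww Θ t0 t - R + (-CC Θ t0 t) * PS Θ H g t0 t = 0 := by
  have hw := (b.wpos ht).ne'
  unfold QQ PS CC
  rw [h]
  field_simp
  ring

/-- the relation between `g`, `Ψ` and `q` -/
lemma rel (b : BD Θ H g σ κ R t0) {t : ℝ} (ht : t ∈ Ioo t0 (t0 + 2 * Real.pi)) :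
    PS Θ H g t0 t * Real.cos (ff Θ t0 t) =
      -g t + (QQ Θ H g R t0 t / ww Θ t0 t - R) * Real.sin (ff Θ t0 t) := by
  have hw := (b.wpos ht).ne'
  unfold QQ PS CC
  have e : Real.sin (ff Θ t0 t) ^ 2 = 1 - Real.cos (ff Θ t0 t) ^ 2 := by
    rw [Real.sin_sq]
  have e2 : Real.cos (ff Θ t0 t) = 1 - ww Θ t0 t := by unfold ww; ring
  rw [e2] at e ⊢
  field_simp
  linear_combination (-(g t)) * e

end BD

end Pool.Agent.P8H8.SV
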