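import Pool.Agent.P8H8.SV.Base

/-!
# Project SV, package BASE, second part
-/

set_option autoImplicit false

open Set Filter
open scoped Topology ContDiff

namespace Pool.Agent.P8H8.SV

variable {Θ H g σ κ : ℝ → ℝ} {R t0 : ℝ}

namespace BD

lemma ff0 : ff Θ t0 t0 = 0 := by unfold ff; ring

lemma ff1 (b : BD Θ H g σ κ R t0) : ff Θ t0 (t0 + 2 * Real.pi) = 2 * Real.pi := by
  unfold ff
  rw [b.per]
  ring

lemma cont_ff (b : BD Θ H g σ κ R t0) : Continuous (ff Θ t0) :=
  continuous_iff_continuousAt.2 fun t => (b.hff t).continuousAt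

lemma cont_ww (b : BD Θ H g σ κ R t0) : Continuous (ww Θ t0) :=
  continuous_iff_continuousAt.2 fun t => (b.hww t).continuousAt

lemma cont_QQ (b : BD Θ H g σ κ R t0) : Continuous (QQ Θ H g R t0) :=
  continuous_iff_continuousAt.2 fun t => (b.hQQ t).continuousAt

lemma cont_g (b : BD Θ H g σ κ R t0) : Continuous g :=
  continuous_iff_continuousAt.2 fun t => (b.dg t).continuousAt

lemma cont_H (b : BD Θ H g σ κ R t0) : Continuous H :=
  continuous_iff_continuousAt.2 fun t => (b.dH t).continuousAt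

lemma cont_dΘ (b : BD Θ H g σ κ R t0) : Continuous (deriv Θ) :=
  b.sm.continuous_deriv (by norm_num)

lemma ww_0 : ww Θ t0 t0 = 0 := by unfold ww; rw [ff0]; simp

lemma ww_1 (b : BD Θ H g σ κ R t0) : ww Θ t0 (t0 + 2 * Real.pi) = 0 := by
  unfold ww
  rw [b.ff1]
  simp

lemma QQ_0 (b : BD Θ H g σ κ R t0) : QQ Θ H g R t0 t0 = 0 := by
  unfold QQ
  rw [ww_0, ff0, b.H0]
  simp

lemma QQ_1 (b : BD Θ H g σ κ R t0) : QQ Θ H g R t0 (t0 + 2 * Real.pi) = 0 := by
  unfold QQ
  rw [b.ww_1, b.ff1, b.Hper, b.H0]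
  simp

lemma dΘ1 (b : BD Θ H g σ κ R t0) : deriv Θ (t0 + 2 * Real.pi) = deriv Θ t0 := by
  rw [← b.κσ, ← b.κσ, b.κper, b.σper]

lemma κ0 (b : BD Θ H g σ κ R t0) : 0 < κ t0 := by
  rw [b.κeq]
  exact div_pos b.Θ0 (b.σpos _)

/-- the limit of `q = Q / w` at the left end -/
lemma lim_q0 (b : BD Θ H g σ κ R t0) :
    Tendsto (fun t => QQ Θ H g R t0 t / ww Θ t0 t) (𝓝[>] t0) (𝓝 (σ t0 / deriv Θ t0)) := by
  have h1 : ∀ᶠ t in 𝓝 t0, 0 < deriv Θ t := b.cont_dΘ.continuousAt.eventually (lt_mem_nhds b.Θ0)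
  have h2 : ∀ᶠ t in 𝓝 t0, ff Θ t0 t < Real.pi := by
    refine b.cont_ff.continuousAt.eventually (gt_mem_nhds ?_)
    rw [ff0]
    exact Real.pi_pos
  obtain ⟨δ, hδ, hb⟩ := Metric.eventually_nhds_iff_ball.1 (h1.and h2)
  have hmem : ∀ t ∈ Ioo t0 (t0 + δ), 0 < deriv Θ t ∧ 0 < Real.sin (ff Θ t0 t) := by
    intro t ht
    have h3 := hb t (by rw [Metric.mem_ball, Real.dist_eq, abs_of_pos (by linarith [ht.1])]; linarith [ht.2])
    refine ⟨h3.1, Real.sin_pos_of_pos_of_lt_pi ?_ h3.2⟩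
    have := b.mono ht.1
    unfold ff
    linarith
  refine HasDerivAt.lhopital_zero_right_on_Ioo (a := t0) (b := t0 + δ) (by linarith)
    (fun t _ => b.hQQ t) (fun t _ => b.hww t) (fun t ht => ?_) ?_ ?_ ?_
  · exact mul_ne_zero (hmem t ht).1.ne' (hmem t ht).2.ne'
  · have := (b.cont_QQ.tendsto t0).mono_left (nhdsWithin_le_nhds (s := Ioi t0))
    rwa [b.QQ_0] at this
  · have := (b.cont_ww.tendsto t0).mono_left (nhdsWithin_le_nhds (s := Ioi t0))
    rwa [ww_0] at this
  · have h4 : Tendsto (fun t => σ t / deriv Θ t) (𝓝[>] t0) (𝓝 (σ t0 / deriv Θ t0)) :=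
      ((b.σsm.continuous.tendsto t0).div (b.cont_dΘ.tendsto t0) b.Θ0.ne').mono_left
        nhdsWithin_le_nhds
    refine h4.congr' ?_
    filter_upwards [Ioo_mem_nhdsGT (show t0 < t0 + δ by linarith)] with t ht
    have h5 := hmem t ht
    rw [mul_div_mul_right _ _ h5.2.ne']

/-- the limit of `q = Q / w` at the right end -/
lemma lim_q1 (b : BD Θ H g σ κ R t0) :
    Tendsto (fun t => QQ Θ H g R t0 t / ww Θ t0 t) (𝓝[<] (t0 + 2 * Real.pi))
      (𝓝 (σ t0 / deriv Θ t0)) := by
  have hpos : 0 < deriv Θ (t0 + 2 * Real.pi) := by rw [b.dΘ1]; exact b.Θ0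
  have h1 : ∀ᶠ t in 𝓝 (t0 + 2 * Real.pi), 0 < deriv Θ t :=
    b.cont_dΘ.continuousAt.eventually (lt_mem_nhds hpos)
  have h2 : ∀ᶠ t in 𝓝 (t0 + 2 * Real.pi), Real.pi < ff Θ t0 t := by
    refine b.cont_ff.continuousAt.eventually (lt_mem_nhds ?_)
    rw [b.ff1]
    linarith [Real.pi_pos]
  obtain ⟨δ, hδ, hb⟩ := Metric.eventually_nhds_iff_ball.1 (h1.and h2)
  have hmem : ∀ t ∈ Ioo (t0 + 2 * Real.pi - δ) (t0 + 2 * Real.pi),
      0 < deriv Θ t ∧ Real.sin (ff Θ t0 t) < 0 := by
    intro t ht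
    have h3 := hb t (by
      rw [Metric.mem_ball, Real.dist_eq, abs_of_neg (by linarith [ht.2])]; linarith [ht.1])
    refine ⟨h3.1, ?_⟩
    have h4 : ff Θ t0 t < 2 * Real.pi := by
      have := b.mono ht.2
      rw [b.per] at this
      unfold ff
      linarith
    have h5 : 0 < Real.sin (ff Θ t0 t - Real.pi) :=
      Real.sin_pos_of_pos_of_lt_pi (by linarith [h3.2]) (by linarith)
    rw [Real.sin_sub_pi] at h5
    linarith
  refine HasDerivAt.lhopital_zero_left_on_Ioo (a := t0 + 2 * Real.pi - δ)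
    (b := t0 + 2 * Real.pi) (by linarith)
    (fun t _ => b.hQQ t) (fun t _ => b.hww t) (fun t ht => ?_) ?_ ?_ ?_
  · exact mul_ne_zero (hmem t ht).1.ne' (hmem t ht).2.ne
  · have := (b.cont_QQ.tendsto (t0 + 2 * Real.pi)).mono_left
      (nhdsWithin_le_nhds (s := Iio (t0 + 2 * Real.pi)))
    rwa [b.QQ_1] at this
  · have := (b.cont_ww.tendsto (t0 + 2 * Real.pi)).mono_left
      (nhdsWithin_le_nhds (s := Iio (t0 + 2 * Real.pi)))
    rwa [b.ww_1] at this
  · have h4 : Tendsto (fun t => σ t / deriv Θ t) (𝓝[<] (t0 + 2 * Real.pi))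
        (𝓝 (σ t0 / deriv Θ t0)) := by
      have := ((b.σsm.continuous.tendsto (t0 + 2 * Real.pi)).div
        (b.cont_dΘ.tendsto (t0 + 2 * Real.pi)) hpos.ne').mono_left
        (nhdsWithin_le_nhds (s := Iio (t0 + 2 * Real.pi)))
      rwa [b.σper, b.dΘ1] at this
    refine h4.congr' ?_
    filter_upwards [Ioo_mem_nhdsLT (show t0 + 2 * Real.pi - δ < t0 + 2 * Real.pi by linarith)]
      with t ht
    have h5 := hmem t ht
    rw [mul_div_mul_right _ _ h5.2.ne]

/-- the limit of `Ψ` at an end -/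
lemma lim_PS (b : BD Θ H g σ κ R t0) {F : Filter ℝ} {T : ℝ} (hF : F ≤ 𝓝 T)
    (hev : ∀ᶠ t in F, t ∈ Ioo t0 (t0 + 2 * Real.pi)) (hT : T = t0 ∨ T = t0 + 2 * Real.pi)
    (hq : Tendsto (fun t => QQ Θ H g R t0 t / ww Θ t0 t) F (𝓝 (σ t0 / deriv Θ t0))) :
    Tendsto (PS Θ H g t0) F (𝓝 (-g t0)) := by
  have hs : Tendsto (fun t => Real.sin (ff Θ t0 t)) F (𝓝 0) := by
    have h1 := ((Real.continuous_sin.comp b.cont_ff).tendsto T).mono_left hF
    have h2 : (Real.sin ∘ ff Θ t0) T = 0 := by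
      rcases hT with rfl | rfl
      · simp [ff0]
      · simp [b.ff1]
    rwa [h2] at h1
  have hc : Tendsto (fun t => Real.cos (ff Θ t0 t)) F (𝓝 1) := by
    have h1 := ((Real.continuous_cos.comp b.cont_ff).tendsto T).mono_left hF
    have h2 : (Real.cos ∘ ff Θ t0) T = 1 := by
      rcases hT with rfl | rfl
      · simp [ff0]
      · simp [b.ff1]
    rwa [h2] at h1
  have hg : Tendsto g F (𝓝 (g t0)) := by
    have h1 := (b.cont_g.tendsto T).mono_left hF
    have h2 : g T = g t0 := by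
      rcases hT with rfl | rfl
      · rfl
      · exact b.gper _
    rwa [h2] at h1
  have h1 : Tendsto (fun t => (-g t + (QQ Θ H g R t0 t / ww Θ t0 t - R) * Real.sin (ff Θ t0 t)) /
      Real.cos (ff Θ t0 t)) F (𝓝 ((-g t0 + (σ t0 / deriv Θ t0 - R) * 0) / 1)) :=
    (hg.neg.add ((hq.sub_const R).mul hs)).div hc one_ne_zero
  rw [mul_zero, add_zero, div_one] at h1
  refine h1.congr' ?_
  filter_upwards [hev, hc.eventually (lt_mem_nhds (show (0 : ℝ) < 1 by norm_num))] with t ht hct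
  rw [← b.rel ht, mul_div_assoc, div_self hct.ne', mul_one]

lemma pi2 : (0 : ℝ) < 2 * Real.pi := by positivity

/-- the ends -/
theorem ends (b : BD Θ H g σ κ R t0) {z1 z2 : ℝ} (h1 : t0 < z1) (h12 : z1 < z2)
    (h2 : z2 < t0 + 2 * Real.pi) (H1 : H z1 = 0) (H2 : H z2 = 0) :
    (∃ u ∈ Ioo t0 z1, 0 < DD Θ H g κ R t0 u) ∨
      ∃ u ∈ Ioo z2 (t0 + 2 * Real.pi), DD Θ H g κ R t0 u < 0 := by
  by_contra hcon
  push Not at hcon
  obtain ⟨hD1, hD2⟩ := hcon
  have m1 : z1 ∈ Ioo t0 (t0 + 2 * Real.pi) := ⟨h1, h12.trans h2⟩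
  have m2 : z2 ∈ Ioo t0 (t0 + 2 * Real.pi) := ⟨h1.trans h12, h2⟩
  set E : ℝ → ℝ → ℝ := fun x t => QQ Θ H g R t0 t / ww Θ t0 t - R + x * PS Θ H g t0 t with hE
  have hEd : ∀ x : ℝ, ∀ t ∈ Ioo t0 (t0 + 2 * Real.pi), HasDerivAt (E x)
      ((x + CC Θ t0 t) * (σ t * DD Θ H g κ R t0 t / ww Θ t0 t)) t := fun x t ht => b.hE x ht
  -- left end
  have L1 : 0 ≤ σ t0 / deriv Θ t0 - R + (-CC Θ t0 z1) * (-g t0) := by
    have hanti : AntitoneOn (E (-CC Θ t0 z1)) (Ioc t0 z1) := by
      refine antitoneOn_of_deriv_nonpos (convex_Ioc _ _) ?_ ?_ fun s hs => ?_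
      · intro s hs
        exact (hEd _ s ⟨hs.1, hs.2.trans_lt m1.2⟩).continuousAt.continuousWithinAt
      · intro s hs
        rw [interior_Ioc] at hs
        exact (hEd _ s ⟨hs.1, hs.2.trans m1.2⟩).differentiableAt.differentiableWithinAt
      · rw [interior_Ioc] at hs
        have ms : s ∈ Ioo t0 (t0 + 2 * Real.pi) := ⟨hs.1, hs.2.trans m1.2⟩
        rw [(hEd _ s ms).deriv]
        have a1 := b.CC_anti ms m1 hs.2
        have a2 := hD1 s hs
        have a3 := b.wpos ms
        have a4 := b.σpos s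
        have a5 : σ s * DD Θ H g κ R t0 s / ww Θ t0 s ≤ 0 :=
          div_nonpos_of_nonpos_of_nonneg (mul_nonpos_of_nonneg_of_nonpos a4.le a2) a3.le
        exact mul_nonpos_of_nonneg_of_nonpos (by linarith) a5
    have hlim : Tendsto (E (-CC Θ t0 z1)) (𝓝[>] t0)
        (𝓝 (σ t0 / deriv Θ t0 - R + (-CC Θ t0 z1) * (-g t0))) := by
      have hev : ∀ᶠ t in 𝓝[>] t0, t ∈ Ioo t0 (t0 + 2 * Real.pi) :=
        Ioo_mem_nhdsGT (by linarith [pi2])
      exact (b.lim_q0.sub_const R).add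
        ((b.lim_PS nhdsWithin_le_nhds hev (Or.inl rfl) b.lim_q0).const_mul _)
    refine ge_of_tendsto hlim ?_
    filter_upwards [Ioo_mem_nhdsGT h1] with t ht
    have := hanti ⟨ht.1, ht.2.le⟩ ⟨h1, le_rfl⟩ ht.2.le
    have e0 : E (-CC Θ t0 z1) z1 = 0 := b.E_zero m1 H1
    rwa [e0] at this
  -- right end
  have L2 : σ t0 / deriv Θ t0 - R + (-CC Θ t0 z2) * (-g t0) ≤ 0 := by
    have hanti : AntitoneOn (E (-CC Θ t0 z2)) (Ico z2 (t0 + 2 * Real.pi)) := by
      refine antitoneOn_of_deriv_nonpos (convex_Ico _ _) ?_ ?_ fun s hs => ?_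
      · intro s hs
        exact (hEd _ s ⟨m2.1.trans_le hs.1, hs.2⟩).continuousAt.continuousWithinAt
      · intro s hs
        rw [interior_Ico] at hs
        exact (hEd _ s ⟨m2.1.trans hs.1, hs.2⟩).differentiableAt.differentiableWithinAt
      · rw [interior_Ico] at hs
        have ms : s ∈ Ioo t0 (t0 + 2 * Real.pi) := ⟨m2.1.trans hs.1, hs.2⟩
        rw [(hEd _ s ms).deriv]
        have a1 := b.CC_anti m2 ms hs.1
        have a2 := hD2 s hs
        have a3 := b.wpos ms
        have a4 := b.σpos s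
        have a5 : 0 ≤ σ s * DD Θ H g κ R t0 s / ww Θ t0 s :=
          div_nonneg (mul_nonneg a4.le a2) a3.le
        exact mul_nonpos_of_nonpos_of_nonneg (by linarith) a5
    have hlim : Tendsto (E (-CC Θ t0 z2)) (𝓝[<] (t0 + 2 * Real.pi))
        (𝓝 (σ t0 / deriv Θ t0 - R + (-CC Θ t0 z2) * (-g t0))) := by
      have hev : ∀ᶠ t in 𝓝[<] (t0 + 2 * Real.pi), t ∈ Ioo t0 (t0 + 2 * Real.pi) :=
        Ioo_mem_nhdsLT (by linarith [pi2])
      exact (b.lim_q1.sub_const R).add
        ((b.lim_PS nhdsWithin_le_nhds hev (Or.inr rfl) b.lim_q1).const_mul _)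
    refine le_of_tendsto hlim ?_
    filter_upwards [Ioo_mem_nhdsLT h2] with t ht
    have := hanti ⟨le_rfl, h2⟩ ⟨ht.1.le, ht.2⟩ ht.1.le
    have e0 : E (-CC Θ t0 z2) z2 = 0 := b.E_zero m2 H2
    rwa [e0] at this
  have a1 := b.CC_anti m1 m2 h12
  have a2 := b.g0
  nlinarith

/-- between two zeros of `H` -/
theorem mid (b : BD Θ H g σ κ R t0) {z p z' e : ℝ} (hz : t0 < z) (hzp : z < p) (hpz : p < z')
    (hz' : z' < t0 + 2 * Real.pi) (H1 : H z = 0) (H2 : H z' = 0) (he : 0 < e * H p) :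
    ∃ u ∈ Ioo z z', e * DD Θ H g κ R t0 u < 0 := by
  have hmem : ∀ t ∈ Icc z z', t ∈ Ioo t0 (t0 + 2 * Real.pi) := fun t ht =>
    ⟨hz.trans_le ht.1, ht.2.trans_lt hz'⟩
  have hYd : ∀ t ∈ Icc z z', HasDerivAt (fun t => e * (H t / ww Θ t0 t))
      (e * (PS Θ H g t0 t * (deriv Θ t / ww Θ t0 t))) t := fun t ht =>
    (b.hY (hmem t ht)).const_mul e
  have hwp : ∀ t ∈ Icc z z', 0 < ww Θ t0 t := fun t ht => b.wpos (hmem t ht)
  have hpm : p ∈ Icc z z' := ⟨hzp.le, hpz.le⟩
  have hYp : 0 < e * (H p / ww Θ t0 p) := by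
    have := div_pos he (hwp p hpm)
    rwa [mul_div_assoc] at this
  obtain ⟨a, ha, ha2⟩ := exists_hasDerivAt_eq_slope (fun t => e * (H t / ww Θ t0 t))
    (fun t => e * (PS Θ H g t0 t * (deriv Θ t / ww Θ t0 t))) hzp
    (fun t ht => (hYd t ⟨ht.1, ht.2.trans hpz.le⟩).continuousAt.continuousWithinAt)
    (fun t ht => hYd t ⟨ht.1.le, ht.2.le.trans hpz.le⟩)
  obtain ⟨c, hc, hc2⟩ := exists_hasDerivAt_eq_slope (fun t => e * (H t / ww Θ t0 t))
    (fun t => e * (PS Θ H g t0 t * (deriv Θ t / ww Θ t0 t))) hpz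
    (fun t ht => (hYd t ⟨hzp.le.trans ht.1, ht.2⟩).continuousAt.continuousWithinAt)
    (fun t ht => hYd t ⟨hzp.le.trans ht.1.le, ht.2.le⟩)
  simp only [H1, H2, zero_div, mul_zero, sub_zero, zero_sub] at ha2 hc2
  have ma : a ∈ Icc z z' := ⟨ha.1.le, ha.2.le.trans hpz.le⟩
  have mc : c ∈ Icc z z' := ⟨hzp.le.trans hc.1.le, hc.2.le⟩
  have pa : 0 < e * PS Θ H g t0 a := by
    have h1 : 0 < e * (PS Θ H g t0 a * (deriv Θ a / ww Θ t0 a)) := by
      rw [ha2]
      exact div_pos hYp (by linarith)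
    by_contra hcon
    push Not at hcon
    have h2 : 0 ≤ deriv Θ a / ww Θ t0 a := div_nonneg (b.nn a) (hwp a ma).le
    have h3 := mul_nonpos_of_nonpos_of_nonneg hcon h2
    have h4 : e * PS Θ H g t0 a * (deriv Θ a / ww Θ t0 a) =
      e * (PS Θ H g t0 a * (deriv Θ a / ww Θ t0 a)) := by ring
    linarith
  have pc : e * PS Θ H g t0 c < 0 := by
    have h1 : e * (PS Θ H g t0 c * (deriv Θ c / ww Θ t0 c)) < 0 := by
      rw [hc2]
      exact div_neg_of_neg_of_pos (by linarith) (by linarith)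
    by_contra hcon
    push Not at hcon
    have h2 : 0 ≤ deriv Θ c / ww Θ t0 c := div_nonneg (b.nn c) (hwp c mc).le
    have h3 := mul_nonneg hcon h2
    have h4 : e * PS Θ H g t0 c * (deriv Θ c / ww Θ t0 c) =
      e * (PS Θ H g t0 c * (deriv Θ c / ww Θ t0 c)) := by ring
    linarith
  have hac : a < c := ha.2.trans hc.1
  obtain ⟨u, hu, hu2⟩ := exists_hasDerivAt_eq_slope (fun t => e * PS Θ H g t0 t)
    (fun t => e * (σ t * DD Θ H g κ R t0 t / ww Θ t0 t)) hac
    (fun t ht => (((b.hPS (hmem t ⟨ma.1.trans ht.1, ht.2.trans mc.2⟩)).const_mul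
      e).continuousAt).continuousWithinAt)
    (fun t ht => (b.hPS (hmem t ⟨ma.1.trans ht.1.le, ht.2.le.trans mc.2⟩)).const_mul e)
  have mu : u ∈ Icc z z' := ⟨ma.1.trans hu.1.le, hu.2.le.trans mc.2⟩
  refine ⟨u, ⟨ha.1.trans hu.1, hu.2.trans hc.2⟩, ?_⟩
  have h1 : e * (σ u * DD Θ H g κ R t0 u / ww Θ t0 u) < 0 := by
    rw [hu2]
    exact div_neg_of_neg_of_pos (by linarith) (by linarith)
  by_contra hcon
  push Not at hcon
  have h2 : 0 ≤ σ u / ww Θ t0 u := div_nonneg (b.σpos u).le (hwp u mu).le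
  have h3 := mul_nonneg hcon h2
  have h4 : e * DD Θ H g κ R t0 u * (σ u / ww Θ t0 u) =
    e * (σ u * DD Θ H g κ R t0 u / ww Θ t0 u) := by ring
  linarith

lemma DD0 (b : BD Θ H g σ κ R t0) : DD Θ H g κ R t0 t0 = 0 := by
  unfold DD
  rw [ww_0, b.QQ_0]
  ring

lemma DD1 (b : BD Θ H g σ κ R t0) : DD Θ H g κ R t0 (t0 + 2 * Real.pi) = 0 := by
  unfold DD
  rw [b.ww_1, b.QQ_1]
  ring

/-- one move of `D` -/
lemma move (b : BD Θ H g σ κ R t0) {t1 t2 e : ℝ} (he : e = 1 ∨ e = -1) (h12 : t1 < t2)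
    (hκ1 : DD Θ H g κ R t0 t1 = 0 → 0 < κ t1) (hκ2 : DD Θ H g κ R t0 t2 = 0 → 0 < κ t2)
    (h1 : e * DD Θ H g κ R t0 t1 ≤ 0) (h2 : 0 ≤ e * DD Θ H g κ R t0 t2)
    (hne : e * DD Θ H g κ R t0 t1 < 0 ∨ 0 < e * DD Θ H g κ R t0 t2) :
    ∃ s ∈ Ioo t1 t2, e * deriv κ s < 0 := by
  rcases he with rfl | rfl
  · simp only [one_mul] at *
    have hκ : 0 < κ t1 := by
      rcases h1.lt_or_eq with h | h
      · exact b.κpos_of_neg h
      · exact hκ1 h
    obtain ⟨s, hs, hs2⟩ := b.up h12 hκ h1 h2 hne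
    exact ⟨s, hs, hs2⟩
  · simp only [neg_mul, one_mul] at *
    have hκ : 0 < κ t2 := by
      have h3 : DD Θ H g κ R t0 t2 ≤ 0 := by linarith
      rcases h3.lt_or_eq with h | h
      · exact b.κpos_of_neg h
      · exact hκ2 h
    obtain ⟨s, hs, hs2⟩ := b.down h12 hκ (by linarith) (by linarith) (by
      rcases hne with h | h
      · left; linarith
      · right; linarith)
    exact ⟨s, hs, by linarith⟩

/-- alternating signs of `D` give alternating signs of `κ'` -/
theorem alt_of_D (b : BD Θ H g σ κ R t0) (n : ℕ) (hn : 1 ≤ n) (e : ℝ) (he : e = 1 ∨ e = -1)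
    (u : ℕ → ℝ) (hu : ∀ i < 2 * n - 2, u i < u (i + 1)) (hu0 : t0 < u 0)
    (hu1 : u (2 * n - 2) < t0 + 2 * Real.pi)
    (hs : ∀ i < 2 * n - 1, 0 < e * (-1) ^ i * DD Θ H g κ R t0 (u i)) :
    AltSigns n (deriv κ) := by
  classical
  set U : ℕ → ℝ := fun i => if i = 0 then t0 else if i < 2 * n then u (i - 1) else
    t0 + 2 * Real.pi with hU
  have U0 : U 0 = t0 := by simp [hU]
  have Um : ∀ i, 1 ≤ i → i < 2 * n → U i = u (i - 1) := by
    intro i h1 h2
    simp only [hU]
    rw [if_neg (by omega), if_pos h2]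
  have U1 : U (2 * n) = t0 + 2 * Real.pi := by
    simp only [hU]
    rw [if_neg (by omega), if_neg (by omega)]
  have Ulast : ∀ i, 2 * n ≤ i → U i = t0 + 2 * Real.pi := by
    intro i h1
    simp only [hU]
    rw [if_neg (by omega), if_neg (by omega)]
  have hlt : ∀ i < 2 * n, U i < U (i + 1) := by
    intro i hi
    rcases Nat.eq_zero_or_pos i with h0 | h0
    · subst h0
      rw [U0, Um 1 le_rfl (by omega)]
      exact hu0
    · rcases Nat.lt_or_ge (i + 1) (2 * n) with h1 | h1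
      · rw [Um i h0 hi, Um (i + 1) (by omega) h1]
        have := hu (i - 1) (by omega)
        have e1 : i - 1 + 1 = i + 1 - 1 := by omega
        rwa [e1] at this
      · rw [Um i h0 hi, Ulast (i + 1) h1]
        have e1 : i - 1 = 2 * n - 2 := by omega
        rw [e1]
        exact hu1
  have hDz : ∀ i, i ≤ 2 * n → DD Θ H g κ R t0 (U i) = 0 → 0 < κ (U i) := by
    intro i hi h0
    rcases Nat.eq_zero_or_pos i with h1 | h1
    · subst h1
      rw [U0]
      exact b.κ0
    · rcases Nat.lt_or_ge i (2 * n) with h2 | h2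
      · exfalso
        rw [Um i h1 h2] at h0
        have := hs (i - 1) (by omega)
        rw [h0, mul_zero] at this
        exact lt_irrefl _ this
      · rw [Ulast i h2, b.κper]
        exact b.κ0
  have hmove : ∀ j, ∃ s, j < 2 * n → s ∈ Ioo (U j) (U (j + 1)) ∧
      e * (-1) ^ j * deriv κ s < 0 := by
    intro j
    by_cases hj : j < 2 * n
    · have hee : e * (-1) ^ j = 1 ∨ e * (-1) ^ j = -1 := by
        rcases he with rfl | rfl <;> rcases neg_one_pow_eq_or ℝ j with h | h <;> rw [h] <;> simp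
      have a1 : e * (-1) ^ j * DD Θ H g κ R t0 (U j) ≤ 0 ∧
          (1 ≤ j → e * (-1) ^ j * DD Θ H g κ R t0 (U j) < 0) := by
        rcases Nat.eq_zero_or_pos j with h0 | h0
        · subst h0
          rw [U0, b.DD0, mul_zero]
          exact ⟨le_rfl, fun h => by omega⟩
        · rw [Um j h0 hj]
          have h3 := hs (j - 1) (by omega)
          have e1 : (-1 : ℝ) ^ j = (-1) ^ (j - 1) * (-1) := by
            rw [← pow_succ]
            congr 1
            omega
          rw [e1]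
          have h4 : e * ((-1) ^ (j - 1) * -1) * DD Θ H g κ R t0 (u (j - 1)) < 0 := by
            have : e * ((-1) ^ (j - 1) * -1) * DD Θ H g κ R t0 (u (j - 1)) =
              -(e * (-1) ^ (j - 1) * DD Θ H g κ R t0 (u (j - 1))) := by ring
            rw [this]
            linarith
          exact ⟨h4.le, fun _ => h4⟩
      have a2 : 0 ≤ e * (-1) ^ j * DD Θ H g κ R t0 (U (j + 1)) ∧
          (j + 1 < 2 * n → 0 < e * (-1) ^ j * DD Θ H g κ R t0 (U (j + 1))) := by
        rcases Nat.lt_or_ge (j + 1) (2 * n) with h0 | h0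
        · rw [Um (j + 1) (by omega) h0]
          have h3 := hs j (by omega)
          rw [Nat.add_sub_cancel]
          exact ⟨h3.le, fun _ => h3⟩
        · rw [Ulast (j + 1) h0, b.DD1, mul_zero]
          exact ⟨le_rfl, fun h => by omega⟩
      obtain ⟨s, hs1, hs2⟩ := b.move hee (hlt j hj) (hDz j hj.le) (hDz (j + 1) hj) a1.1 a2.1 (by
        rcases Nat.eq_zero_or_pos j with h0 | h0
        · right
          exact a2.2 (by omega)
        · left
          exact a1.2 h0)
      exact ⟨s, fun _ => ⟨hs1, hs2⟩⟩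
    · exact ⟨0, fun h => absurd h hj⟩
  choose s hs1 using hmove
  have hsl : ∀ j, j + 1 < 2 * n → s j < s (j + 1) := by
    intro j hj
    have h1 := (hs1 j (by omega)).1.2
    have h2 := (hs1 (j + 1) hj).1.1
    linarith
  have hfirst : t0 < s 0 := by
    have := (hs1 0 (by omega)).1.1
    rwa [U0] at this
  have hlast : s (2 * n - 1) < t0 + 2 * Real.pi := by
    have := (hs1 (2 * n - 1) (by omega)).1.2
    have e1 : 2 * n - 1 + 1 = 2 * n := by omega
    rwa [e1, U1] at this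
  rcases he with he | he
  · -- first sign negative
    refine ⟨fun i => if i < 2 * n - 1 then s (i + 1) else s (i - (2 * n - 1)) + 2 * Real.pi, ?_, ?_,
      ?_⟩
    · intro i hi
      simp only
      rcases Nat.lt_or_ge i (2 * n - 1) with h1 | h1
      · rw [if_pos h1]
        rcases Nat.lt_or_ge (i + 1) (2 * n - 1) with h2 | h2
        · rw [if_pos h2]
          exact hsl _ (by omega)
        · rw [if_neg (by omega)]
          have e1 : i + 1 - (2 * n - 1) = 0 := by omega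
          have e2 : i + 1 = 2 * n - 1 := by omega
          rw [e1, e2]
          linarith
      · rw [if_neg (by omega), if_neg (by omega)]
        have e1 : i - (2 * n - 1) = 0 := by omega
        have e2 : i + 1 - (2 * n - 1) = 0 + 1 := by omega
        rw [e1, e2]
        have := hsl 0 (by omega)
        linarith
    · simp only
      rw [if_neg (by omega), if_pos (by omega)]
      have e1 : 2 * n - (2 * n - 1) = 0 + 1 := by omega
      rw [e1]
    · intro i hi
      simp only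
      rcases Nat.lt_or_ge i (2 * n - 1) with h1 | h1
      · rw [if_pos h1]
        have h2 := (hs1 (i + 1) (by omega)).2
        rw [he, one_mul, pow_succ] at h2
        linarith
      · rw [if_neg (by omega)]
        have e1 : i - (2 * n - 1) = 0 := by omega
        have e2 : i = 2 * n - 1 := by omega
        rw [e1, b.dκper]
        have h2 := (hs1 0 (by omega)).2
        rw [he, one_mul, pow_zero, one_mul] at h2
        have h3 : (-1 : ℝ) ^ i = -1 := by
          rw [e2]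
          exact Odd.neg_one_pow ⟨n - 1, by omega⟩
        rw [h3]
        linarith
  · refine ⟨fun i => if i < 2 * n then s i else s (i - 2 * n) + 2 * Real.pi, ?_, ?_, ?_⟩
    · intro i hi
      simp only
      rw [if_pos hi]
      rcases Nat.lt_or_ge (i + 1) (2 * n) with h2 | h2
      · rw [if_pos h2]
        exact hsl _ h2
      · rw [if_neg (by omega)]
        have e1 : i + 1 - 2 * n = 0 := by omega
        have e2 : i = 2 * n - 1 := by omega
        rw [e1, e2]
        linarith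
    · simp only
      rw [if_neg (by omega), if_pos (by omega)]
      have e1 : 2 * n - 2 * n = 0 := by omega
      rw [e1]
    · intro i hi
      simp only
      rw [if_pos hi]
      have h2 := (hs1 i hi).2
      rw [he] at h2
      linarith

/-- the base point theorem -/
theorem main (b : BD Θ H g σ κ R t0) (n : ℕ) (hn : 2 ≤ n) (p : ℕ → ℝ)
    (hp : ∀ i < 2 * n - 1, p i < p (i + 1)) (hp0 : t0 < p 0)
    (hp1 : p (2 * n - 1) < t0 + 2 * Real.pi) (hs : ∀ i < 2 * n, (-1) ^ i * H (p i) < 0) :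
    AltSigns n (deriv κ) := by
  -- zeros of H
  have hz : ∀ j, ∃ z, j < 2 * n - 1 → z ∈ Ioo (p j) (p (j + 1)) ∧ H z = 0 := by
    intro j
    by_cases hj : j < 2 * n - 1
    · have h1 := hs j (by omega)
      have h2 := hs (j + 1) (by omega)
      rw [pow_succ] at h2
      have hlt := hp j hj
      have hc : ContinuousOn (fun t => (-1) ^ j * H t) (Icc (p j) (p (j + 1))) :=
        (continuous_const.mul b.cont_H).continuousOn
      have h3 := intermediate_value_Ioo hlt.le hc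
      have h4 : (0 : ℝ) ∈ Ioo ((fun t => (-1) ^ j * H t) (p j))
          ((fun t => (-1) ^ j * H t) (p (j + 1))) := by
        constructor
        · exact h1
        · simp only
          linarith
      obtain ⟨z, hz1, hz2⟩ := h3 h4
      refine ⟨z, fun _ => ⟨hz1, ?_⟩⟩
      simp only at hz2
      rcases mul_eq_zero.1 hz2 with h5 | h5
      · exact absurd h5 (pow_ne_zero _ (by norm_num))
      · exact h5
    · exact ⟨0, fun h => absurd h hj⟩
  choose z hz1 using hz
  have hpm : ∀ i, i < 2 * n → t0 < p i ∧ p i < t0 + 2 * Real.pi := by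
    have hmono : ∀ i j, i ≤ j → j < 2 * n → p i ≤ p j := by
      intro i j hij
      induction j, hij using Nat.le_induction with
      | base => intro _; exact le_rfl
      | succ k hk ih =>
        intro h
        exact (ih (by omega)).trans (hp k (by omega)).le
    intro i hi
    exact ⟨hp0.trans_le (hmono 0 i (Nat.zero_le _) hi),
      (hmono i (2 * n - 1) (by omega) (by omega)).trans_lt hp1⟩
  have hzm : ∀ j, j < 2 * n - 1 → t0 < z j ∧ z j < t0 + 2 * Real.pi := fun j hj =>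
    ⟨(hpm j (by omega)).1.trans (hz1 j hj).1.1, (hz1 j hj).1.2.trans (hpm (j + 1) (by omega)).2⟩
  have hzlt : ∀ j, j + 1 < 2 * n - 1 → z j < z (j + 1) := fun j hj =>
    (hz1 j (by omega)).1.2.trans (hz1 (j + 1) hj).1.1
  -- points between the zeros
  have hu : ∀ j, ∃ u, j + 1 < 2 * n - 1 → u ∈ Ioo (z j) (z (j + 1)) ∧
      (-1) ^ j * DD Θ H g κ R t0 u < 0 := by
    intro j
    by_cases hj : j + 1 < 2 * n - 1
    · have h1 := hs (j + 1) (by omega)
      rw [pow_succ] at h1
      obtain ⟨u, hu1, hu2⟩ := b.mid (e := (-1) ^ j) (hzm j (by omega)).1 (hz1 j (by omega)).1.2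
        (hz1 (j + 1) hj).1.1 (hzm (j + 1) hj).2 (hz1 j (by omega)).2 (hz1 (j + 1) hj).2
        (by linarith)
      exact ⟨u, fun _ => ⟨hu1, hu2⟩⟩
    · exact ⟨0, fun h => absurd h hj⟩
  choose u hu1 using hu
  have hult : ∀ j, j + 2 < 2 * n - 1 → u j < u (j + 1) := fun j hj =>
    (hu1 j (by omega)).1.2.trans (hu1 (j + 1) (by omega)).1.1
  have hz02 : z 0 < z (2 * n - 2) := by
    have hmono : ∀ j, 1 ≤ j → j < 2 * n - 1 → z 0 < z j := by
      intro j hj
      induction j, hj using Nat.le_induction with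
      | base => intro h; exact hzlt 0 h
      | succ k hk ih =>
        intro h
        exact (ih (by omega)).trans (hzlt k h)
    exact hmono _ (by omega) (by omega)
  rcases b.ends (hzm 0 (by omega)).1 hz02 (hzm (2 * n - 2) (by omega)).2 (hz1 0 (by omega)).2
    (hz1 (2 * n - 2) (by omega)).2 with ⟨a, ha, ha2⟩ | ⟨a, ha, ha2⟩
  · refine b.alt_of_D n (by omega) 1 (Or.inl rfl) (fun i => if i = 0 then a else u (i - 1)) ?_ ?_ ?_
      ?_
    · intro i hi
      rw [if_neg (Nat.succ_ne_zero i), Nat.add_sub_cancel]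
      rcases Nat.eq_zero_or_pos i with h0 | h0
      · subst h0
        rw [if_pos rfl]
        exact ha.2.trans (hu1 0 (by omega)).1.1
      · rw [if_neg (by omega)]
        have := hult (i - 1) (by omega)
        have e1 : i - 1 + 1 = i := by omega
        rwa [e1] at this
    · simp only [if_true]
      exact ha.1
    · rw [if_neg (by omega)]
      have := (hu1 (2 * n - 2 - 1) (by omega)).1.2
      exact this.trans (hzm _ (by omega)).2
    · intro i hi
      rcases Nat.eq_zero_or_pos i with h0 | h0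
      · subst h0
        rw [if_pos rfl]
        simpa using ha2
      · rw [if_neg (by omega)]
        have := (hu1 (i - 1) (by omega)).2
        have e1 : (-1 : ℝ) ^ i = (-1) ^ (i - 1) * (-1) := by
          rw [← pow_succ]
          congr 1
          omega
        rw [e1]
        linarith
  · refine b.alt_of_D n (by omega) (-1) (Or.inr rfl)
      (fun i => if i < 2 * n - 2 then u i else a) ?_ ?_ ?_ ?_
    · intro i hi
      rw [if_pos hi]
      rcases Nat.lt_or_ge (i + 1) (2 * n - 2) with h0 | h0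
      · rw [if_pos h0]
        exact hult i (by omega)
      · rw [if_neg (by omega)]
        have h1 := (hu1 i (by omega)).1.2
        have e1 : i + 1 = 2 * n - 2 := by omega
        rw [e1] at h1
        exact h1.trans ha.1
    · rw [if_pos (by omega)]
      exact (hzm 0 (by omega)).1.trans (hu1 0 (by omega)).1.1
    · rw [if_neg (by omega)]
      exact ha.2
    · intro i hi
      rcases Nat.lt_or_ge i (2 * n - 2) with h0 | h0
      · rw [if_pos h0]
        have := (hu1 i (by omega)).2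
        linarith
      · rw [if_neg (by omega)]
        have e1 : i = 2 * n - 2 := by omega
        have h3 : (-1 : ℝ) ^ i = 1 := by
          rw [e1]
          exact Even.neg_one_pow ⟨n - 1, by omega⟩
        rw [h3]
        linarith

end BD

theorem t_BASE : S_BASE := by
  intro n Θ H g σ κ R hn h1 h2 h3 h4 h5 h6 h7 h8 h9 h10 h11 h12 t0 h13 h14 h15 h16
  obtain ⟨p, hp, hp0, hp1, hs⟩ := h16
  exact BD.main ⟨h1, h2, h3, h4, h5, h6, h7, h8, h9, h10, h11, h12, h13, h14, h15⟩ n hn p hp hp0 hp1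
    hs

end Pool.Agent.P8H8.SV
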