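import Pool.Agent.P8H8.SV.Stm
import Pool.Agent.Helper859.SP.T15

/-!
# Project SV: from the orthogonality relations to crossings and vertices
-/

set_option autoImplicit false

open MeasureTheory Set Filter Metric
open scoped Topology ContDiff ComplexConjugate

namespace Pool.Agent.P8H8.SV

variable {φ : ℂ → ℂ} {r : ℝ} {Θ : ℝ → ℝ}

lemma norm_e (t : ℝ) : ‖Complex.exp (t * Complex.I)‖ = 1 := Complex.norm_exp_ofReal_mul_I t

lemma Dom.mem (h : Dom φ r) (t : ℝ) : Complex.exp (t * Complex.I) ∈ ball (0 : ℂ) r := by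
  rw [mem_ball_zero_iff, norm_e]
  exact h.hr

lemma e_per (t : ℝ) : Complex.exp (((t + 2 * Real.pi : ℝ) : ℂ) * Complex.I) =
    Complex.exp (t * Complex.I) := by
  have : (((t + 2 * Real.pi : ℝ) : ℂ) * Complex.I) = t * Complex.I + 2 * Real.pi * Complex.I := by
    push_cast; ring
  rw [this, Complex.exp_periodic]

lemma γ_per (t : ℝ) : γ φ (t + 2 * Real.pi) = γ φ t := by
  unfold γ
  rw [e_per]

lemma N_per (t : ℝ) : N φ (t + 2 * Real.pi) = N φ t := by
  unfold N
  rw [e_per]

lemma norm_N (t : ℝ) : ‖N φ t‖ = ‖deriv φ (Complex.exp (t * Complex.I))‖ := by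
  unfold N
  rw [norm_mul, norm_e, one_mul]

lemma Dom.deriv_ne (h : Dom φ r) {w : ℂ} (hw : w ∈ ball (0 : ℂ) r) : deriv φ w ≠ 0 := by
  exact Pool.Agent.Helper859.SP.T15.deriv_ne_zero_of_injOn isOpen_ball h.hol h.inj hw

lemma Dom.N_pos (h : Dom φ r) (t : ℝ) : 0 < ‖N φ t‖ := by
  rw [norm_N]
  exact norm_pos_iff.2 (h.deriv_ne (h.mem t))

lemma hasDerivAt_e (t : ℝ) : HasDerivAt (fun s : ℝ => Complex.exp (s * Complex.I))
    (Complex.I * Complex.exp (t * Complex.I)) t := by
  have h1 : HasDerivAt (fun s : ℝ => (s : ℂ) * Complex.I) (1 * Complex.I) t :=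
    (Complex.ofRealCLM.hasDerivAt (x := t)).mul_const Complex.I
  have := h1.cexp
  simpa [mul_comm] using this

lemma Dom.hasDerivAt_γ (h : Dom φ r) (t : ℝ) : HasDerivAt (γ φ) (Complex.I * N φ t) t := by
  have h1 : HasDerivAt φ (deriv φ (Complex.exp (t * Complex.I))) (Complex.exp (t * Complex.I)) :=
    (h.hol.differentiableAt (isOpen_ball.mem_nhds (h.mem t))).hasDerivAt
  have h2 := h1.comp_of_eq t (hasDerivAt_e t) rfl
  refine (h2.congr_deriv ?_)
  unfold N
  ring

lemma contDiff_e : ContDiff ℝ ∞ (fun s : ℝ => Complex.exp (s * Complex.I)) := by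
  have : ContDiff ℝ ∞ (fun s : ℝ => (s : ℂ) * Complex.I) :=
    Complex.ofRealCLM.contDiff.mul contDiff_const
  exact this.cexp

lemma comp_e {f : ℂ → ℂ} (hf : DifferentiableOn ℂ f (ball 0 r)) (h : Dom φ r) :
    ContDiff ℝ ∞ (fun s : ℝ => f (Complex.exp (s * Complex.I))) := by
  have h1 : ContDiffOn ℂ ∞ f (ball 0 r) := hf.contDiffOn isOpen_ball
  rw [contDiff_iff_contDiffAt]
  intro t
  have h2 : ContDiffAt ℂ ∞ f (Complex.exp (t * Complex.I)) :=
    h1.contDiffAt (isOpen_ball.mem_nhds (h.mem t))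
  exact (h2.restrict_scalars ℝ).comp t contDiff_e.contDiffAt

lemma Dom.contDiff_γ (h : Dom φ r) : ContDiff ℝ ∞ (γ φ) := comp_e h.hol h

lemma Dom.contDiff_N (h : Dom φ r) : ContDiff ℝ ∞ (N φ) := by
  have h1 : ContDiff ℝ ∞ (fun s : ℝ => deriv φ (Complex.exp (s * Complex.I))) :=
    comp_e (h.hol.deriv isOpen_ball) h
  exact contDiff_e.mul h1

lemma Dom.contDiff_σ (h : Dom φ r) : ContDiff ℝ ∞ (fun t => ‖N φ t‖) := by
  rw [contDiff_iff_contDiffAt]
  intro t
  exact (h.contDiff_N.contDiffAt).norm ℝ (norm_pos_iff.1 (h.N_pos t))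

lemma hasDerivAt_z (h : Dom φ r) (hA : Ang φ Θ) (a : ℂ) (t : ℝ) :
    HasDerivAt (fun t => (γ φ t - a) * Complex.exp (-(Θ t * Complex.I)))
      (Complex.I * ‖N φ t‖ - Complex.I * ((deriv Θ t : ℝ) : ℂ) *
        ((γ φ t - a) * Complex.exp (-(Θ t * Complex.I)))) t := by
  have h1 := (h.hasDerivAt_γ t).sub_const a
  have hΘ : HasDerivAt Θ (deriv Θ t) t := (hA.sm.differentiable (by simp) t).hasDerivAt
  have h2 : HasDerivAt (fun s : ℝ => -((Θ s : ℂ) * Complex.I))
      (-(((deriv Θ t : ℝ) : ℂ) * Complex.I)) t := by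
    have := (hΘ.ofReal_comp.mul_const Complex.I).neg
    exact this
  have h3 := h1.mul h2.cexp
  refine h3.congr_deriv ?_
  have e : N φ t = ‖N φ t‖ * Complex.exp (Θ t * Complex.I) := hA.eq t
  have e2 : Complex.exp (Θ t * Complex.I) * Complex.exp (-(Θ t * Complex.I)) = 1 := by
    rw [← Complex.exp_add]
    simp
  have e3 : Complex.I * N φ t * Complex.exp (-(Θ t * Complex.I)) = Complex.I * ‖N φ t‖ := by
    calc Complex.I * N φ t * Complex.exp (-(Θ t * Complex.I))
        = Complex.I * (‖N φ t‖ * Complex.exp (Θ t * Complex.I)) *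
          Complex.exp (-(Θ t * Complex.I)) := by rw [← e]
      _ = Complex.I * ‖N φ t‖ * (Complex.exp (Θ t * Complex.I) *
          Complex.exp (-(Θ t * Complex.I))) := by ring
      _ = _ := by rw [e2, mul_one]
  rw [e3]
  ring

/-- the curvature of the boundary -/
noncomputable def curv (φ : ℂ → ℂ) (t : ℝ) : ℝ :=
  (1 + Complex.exp (t * Complex.I) * deriv (deriv φ) (Complex.exp (t * Complex.I)) /
    deriv φ (Complex.exp (t * Complex.I))).re / ‖deriv φ (Complex.exp (t * Complex.I))‖

/-- vertices from crossings -/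
theorem vert_of_cross (hSUPP : S_SUPP) (hVERT : S_VERT) (h : Dom φ r) (hA : Ang φ Θ)
    (hsup : ∀ s t, ip (γ φ s - γ φ t) (N φ t) ≤ 0) (hΘ : ∀ t, 0 ≤ deriv Θ t) (hmono : StrictMono Θ)
    (a : ℂ) (R : ℝ) (hR : 0 < R) (n : ℕ) (hn : 2 ≤ n)
    (hcr : AltSigns n (fun t => ‖γ φ t - a‖ - R)) : AltSigns n (deriv (curv φ)) := by
  have h1 := hSUPP φ r Θ a R n h hA hsup hR (by omega) hcr
  set z : ℝ → ℂ := fun t => (γ φ t - a) * Complex.exp (-(Θ t * Complex.I)) with hz
  have hzd : ∀ t, HasDerivAt z (Complex.I * ‖N φ t‖ - Complex.I * deriv Θ t * z t) t :=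
    fun t => hasDerivAt_z h hA a t
  have hzp : ∀ t, z (t + 2 * Real.pi) = z t := by
    intro t
    simp only [hz]
    rw [γ_per, hA.per]
    congr 1
    have : (-(((Θ t + 2 * Real.pi : ℝ) : ℂ) * Complex.I)) =
        -(Θ t * Complex.I) - 2 * Real.pi * Complex.I := by push_cast; ring
    rw [this, Complex.exp_sub, Complex.exp_two_pi_mul_I, div_one]
  refine hVERT n Θ (fun t => (z t).re - R) (fun t => (z t).im) (fun t => ‖N φ t‖) (curv φ) R hn
    (hA.sm.of_le (by norm_cast)) hmono hΘ hA.per ?_ ?_ h.N_pos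
    (h.contDiff_σ.of_le (by exact_mod_cast le_top)) ?_ ?_ ?_ ?_ h1
  · intro t
    have h2 : HasDerivAt (fun t => (z t).re) _ t :=
      (Complex.reCLM.hasFDerivAt.comp_hasDerivAt t (hzd t))
    refine (h2.sub_const R).congr_deriv ?_
    simp [mul_comm]
  · intro t
    have h2 : HasDerivAt (fun t => (z t).im) _ t :=
      (Complex.imCLM.hasFDerivAt.comp_hasDerivAt t (hzd t))
    refine h2.congr_deriv ?_
    simp [mul_comm]
  · intro t
    unfold curv
    rw [hA.der, norm_N]
  · intro t
    simp only [hzp]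
  · intro t
    simp only [hzp]
  · intro t
    simp only [N_per]

/-- integrals of `cos (k Θ) Θ'` -/
lemma int_cos (hA : Ang φ Θ) {k : ℕ} (hk : 1 ≤ k) :
    ∫ t in (0 : ℝ)..2 * Real.pi, Real.cos (k * Θ t) * deriv Θ t = 0 := by
  have hk' : (k : ℝ) ≠ 0 := by positivity
  have hd : ∀ t ∈ uIcc (0 : ℝ) (2 * Real.pi), HasDerivAt (fun t => Real.sin (k * Θ t) / k)
      (Real.cos (k * Θ t) * deriv Θ t) t := by
    intro t _
    have hΘ : HasDerivAt Θ (deriv Θ t) t := (hA.sm.differentiable (by simp) t).hasDerivAt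
    refine (((hΘ.const_mul (k : ℝ)).sin).div_const _).congr_deriv ?_
    field_simp
  rw [intervalIntegral.integral_eq_sub_of_hasDerivAt hd]
  · have : Θ (2 * Real.pi) = Θ 0 + 2 * Real.pi := by
      have := hA.per 0
      rwa [zero_add] at this
    rw [this, mul_add, show (k : ℝ) * (2 * Real.pi) = k * (2 * Real.pi) from rfl,
      Real.sin_add_nat_mul_two_pi, sub_self]
  · apply Continuous.intervalIntegrable
    have h1 : Continuous Θ := hA.sm.continuous
    have h2 : Continuous (deriv Θ) := hA.sm.continuous_deriv (by simp)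
    fun_prop

lemma int_sin (hA : Ang φ Θ) {k : ℕ} (hk : 1 ≤ k) :
    ∫ t in (0 : ℝ)..2 * Real.pi, Real.sin (k * Θ t) * deriv Θ t = 0 := by
  have hk' : (k : ℝ) ≠ 0 := by positivity
  have hd : ∀ t ∈ uIcc (0 : ℝ) (2 * Real.pi), HasDerivAt (fun t => -(Real.cos (k * Θ t) / k))
      (Real.sin (k * Θ t) * deriv Θ t) t := by
    intro t _
    have hΘ : HasDerivAt Θ (deriv Θ t) t := (hA.sm.differentiable (by simp) t).hasDerivAt
    refine ((((hΘ.const_mul (k : ℝ)).cos).div_const _).neg).congr_deriv ?_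
    field_simp
  rw [intervalIntegral.integral_eq_sub_of_hasDerivAt hd]
  · have : Θ (2 * Real.pi) = Θ 0 + 2 * Real.pi := by
      have := hA.per 0
      rwa [zero_add] at this
    rw [this, mul_add, Real.cos_add_nat_mul_two_pi, sub_self]
  · apply Continuous.intervalIntegrable
    have h1 : Continuous Θ := hA.sm.continuous
    have h2 : Continuous (deriv Θ) := hA.sm.continuous_deriv (by simp)
    fun_prop

lemma int_one (hA : Ang φ Θ) : ∫ t in (0 : ℝ)..2 * Real.pi, deriv Θ t = 2 * Real.pi := by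
  have hd : ∀ t ∈ uIcc (0 : ℝ) (2 * Real.pi), HasDerivAt Θ (deriv Θ t) t := fun t _ =>
    (hA.sm.differentiable (by simp) t).hasDerivAt
  rw [intervalIntegral.integral_eq_sub_of_hasDerivAt hd
    ((hA.sm.continuous_deriv (by simp)).intervalIntegrable _ _)]
  have := hA.per 0
  rw [zero_add] at this
  rw [this]
  ring

/-- crossings from the orthogonality relations -/
theorem cross_of_orth (hST : S_STURM) (hDISC : S_DISC) (h : Dom φ r) (hA : Ang φ Θ)
    (hΘ : ∀ t, 0 ≤ deriv Θ t) (hmono : StrictMono Θ) (a : ℂ) (n : ℕ) (hn : 1 ≤ n)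
    (horth : ∀ k : ℕ, 1 ≤ k → k ≤ n →
      (∫ t in (0 : ℝ)..2 * Real.pi, ‖γ φ t - a‖ ^ 2 * Real.cos (k * Θ t) * deriv Θ t = 0) ∧
      ∫ t in (0 : ℝ)..2 * Real.pi, ‖γ φ t - a‖ ^ 2 * Real.sin (k * Θ t) * deriv Θ t = 0) :
    ∃ R : ℝ, 0 < R ∧ (AltSigns (n + 1) (fun t => ‖γ φ t - a‖ - R) ∨ φ '' ball 0 1 = ball a R) := by
  have hc1 : Continuous Θ := hA.sm.continuous
  have hc2 : Continuous (deriv Θ) := hA.sm.continuous_deriv (by simp)
  have hc3 : Continuous (γ φ) := h.contDiff_γ.continuous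
  have hpi := Real.pi_pos
  set E : ℝ → ℝ := fun t => ‖γ φ t - a‖ ^ 2 with hE
  have hEc : Continuous E := by fun_prop
  set S : ℝ := (∫ t in (0 : ℝ)..2 * Real.pi, E t * deriv Θ t) / (2 * Real.pi) with hS
  have hS0 : 0 ≤ S := by
    refine div_nonneg (intervalIntegral.integral_nonneg (by positivity) fun t _ =>
      mul_nonneg (sq_nonneg _) (hΘ t)) (by positivity)
  have hst := hST n (fun t => E t - S) Θ hn (by fun_prop)
    (fun t => by simp only [hE, γ_per]) (hA.sm.of_le (by exact_mod_cast le_top)) hA.per hΘ hmono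
    (by
      intro k hk
      rcases Nat.eq_zero_or_pos k with hk0 | hk0
      · subst hk0
        have e : ∀ t, (E t - S) * Real.cos (((0 : ℕ) : ℝ) * Θ t) * deriv Θ t =
            E t * deriv Θ t - S * deriv Θ t := by
          intro t
          simp
          ring
        simp_rw [e]
        rw [intervalIntegral.integral_sub (by apply Continuous.intervalIntegrable; fun_prop)
          (by apply Continuous.intervalIntegrable; fun_prop),
          intervalIntegral.integral_const_mul, int_one hA, hS]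
        field_simp
        ring
      · have e : ∀ t, (E t - S) * Real.cos (k * Θ t) * deriv Θ t =
            E t * Real.cos (k * Θ t) * deriv Θ t - S * (Real.cos (k * Θ t) * deriv Θ t) := by
          intro t
          ring
        simp_rw [e]
        rw [intervalIntegral.integral_sub (by apply Continuous.intervalIntegrable; fun_prop)
          (by apply Continuous.intervalIntegrable; fun_prop),
          intervalIntegral.integral_const_mul, int_cos hA hk0, (horth k hk0 hk).1]
        simp)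
    (by
      intro k hk
      rcases Nat.eq_zero_or_pos k with hk0 | hk0
      · subst hk0
        simp
      · have e : ∀ t, (E t - S) * Real.sin (k * Θ t) * deriv Θ t =
            E t * Real.sin (k * Θ t) * deriv Θ t - S * (Real.sin (k * Θ t) * deriv Θ t) := by
          intro t
          ring
        simp_rw [e]
        rw [intervalIntegral.integral_sub (by apply Continuous.intervalIntegrable; fun_prop)
          (by apply Continuous.intervalIntegrable; fun_prop),
          intervalIntegral.integral_const_mul, int_sin hA hk0, (horth k hk0 hk).2]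
        simp)
  have hsq : Real.sqrt S ^ 2 = S := Real.sq_sqrt hS0
  rcases hst with hst | hst
  · obtain ⟨p, h1, h2, h3⟩ := hst
    have hSpos : 0 < S := by
      have := h3 1 (by omega)
      have h4 : 0 ≤ E (p 1) := sq_nonneg _
      simp only [pow_one] at this
      linarith
    have hRpos := Real.sqrt_pos.2 hSpos
    refine ⟨Real.sqrt S, hRpos, Or.inl ⟨p, h1, h2, fun i hi => ?_⟩⟩
    have h4 := h3 i hi
    have e : E (p i) - S = (‖γ φ (p i) - a‖ - Real.sqrt S) * (‖γ φ (p i) - a‖ + Real.sqrt S) := by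
      simp only [hE]
      nlinarith [hsq]
    simp only [e, ← mul_assoc] at h4
    exact pos_of_mul_pos_left h4 (by positivity)
  · have hE2 : ∀ t, ‖γ φ t - a‖ = Real.sqrt S := by
      intro t
      have h1 : E t = S := by linarith [hst t]
      rw [← h1, hE]
      simp only
      rw [Real.sqrt_sq (norm_nonneg _)]
    have hSpos : 0 < Real.sqrt S := by
      rcases (Real.sqrt_nonneg S).lt_or_eq with h0 | h0
      · exact h0
      · exfalso
        have h1 : ∀ t, γ φ t = a := by
          intro t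
          have := hE2 t
          rw [← h0, norm_eq_zero, sub_eq_zero] at this
          exact this
        have h2 : γ φ 0 = γ φ Real.pi := by rw [h1, h1]
        have h3 := h.inj (h.mem 0) (h.mem Real.pi) h2
        rw [Complex.exp_pi_mul_I] at h3
        simp at h3
        norm_num at h3
    exact ⟨Real.sqrt S, hSpos, Or.inr (hDISC φ r a _ h hSpos hE2)⟩

end Pool.Agent.P8H8.SV
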