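import Pool.Agent.P8H8.SV.Lim

/-!
# Project SV, package LIM, second part
-/

set_option autoImplicit false

open MeasureTheory Set Filter Metric
open scoped Topology ContDiff ComplexConjugate

namespace Pool.Agent.P8H8.SV

open Pool.Agent.TH298.Sch (SC dd Lr)
open Pool.Agent.R227.SA (la Dat)

namespace LIM

variable {φ : ℂ → ℂ} {r lam c : ℝ} {v : ℂ → ℝ}

/-- the second derivatives of `V ∘ exp` -/
lemma second (hLAP : S_LAP) {V : ℂ → ℝ} (hV : ContDiff ℝ 1 V) (hW : ContDiff ℝ 1 (Lr V))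
    (hsm : ContDiffOn ℝ ∞ V (ball 0 1)) {ζ : ℂ} (hζ : ζ.re < 0) :
    DifferentiableAt ℝ (dd 1 (fun x => V (Complex.exp x))) ζ ∧
    DifferentiableAt ℝ (dd Complex.I (fun x => V (Complex.exp x))) ζ ∧
    (∀ η, dd η (dd Complex.I (fun x => V (Complex.exp x))) ζ =
      fderiv ℝ (Lr V) (Complex.exp ζ) (Complex.exp ζ * η)) ∧
    dd Complex.I (dd 1 (fun x => V (Complex.exp x))) ζ =
      fderiv ℝ (Lr V) (Complex.exp ζ) (Complex.exp ζ * 1) ∧
    dd 1 (dd 1 (fun x => V (Complex.exp x))) ζ = ‖Complex.exp ζ‖ ^ 2 * la V (Complex.exp ζ) -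
      fderiv ℝ (Lr V) (Complex.exp ζ) (Complex.exp ζ * Complex.I) := by
  have hw : ‖Complex.exp ζ‖ < 1 := by rw [Complex.norm_exp, Real.exp_lt_one_iff]; exact hζ
  have hVat : ContDiffAt ℝ ∞ V (Complex.exp ζ) :=
    hsm.contDiffAt (isOpen_ball.mem_nhds (mem_ball_zero_iff.2 hw))
  have hexp : ContDiff ℝ ∞ Complex.exp := Complex.contDiff_exp
  have hF : ContDiffAt ℝ ∞ (fun x => V (Complex.exp x)) ζ := hVat.comp ζ hexp.contDiffAt
  have hF1 : ContDiffAt ℝ 1 (fderiv ℝ (fun x => V (Complex.exp x))) ζ :=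
    hF.fderiv_right (by norm_cast)
  have hFd : DifferentiableAt ℝ (fderiv ℝ (fun x => V (Complex.exp x))) ζ :=
    hF1.differentiableAt (by norm_num)
  have hdd : ∀ h : ℂ, HasFDerivAt (dd h (fun x => V (Complex.exp x)))
      ((ContinuousLinearMap.apply ℝ ℝ h).comp (fderiv ℝ (fderiv ℝ (fun x => V (Complex.exp x))) ζ))
      ζ := by
    intro h
    exact (ContinuousLinearMap.apply ℝ ℝ h).hasFDerivAt.comp ζ hFd.hasFDerivAt
  have hsymm := (hF.of_le (m := 2) (by norm_cast)).isSymmSndFDerivAt (by simp)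
  have hWeq : dd Complex.I (fun x => V (Complex.exp x)) = fun x => Lr V (Complex.exp x) := by
    funext x
    rw [exp_chain hV]
    unfold Lr
    rw [mul_comm]
  have h3 : ∀ η, dd η (dd Complex.I (fun x => V (Complex.exp x))) ζ =
      fderiv ℝ (Lr V) (Complex.exp ζ) (Complex.exp ζ * η) := by
    intro η
    rw [hWeq, exp_chain hW]
  have h4 : dd Complex.I (dd 1 (fun x => V (Complex.exp x))) ζ =
      fderiv ℝ (Lr V) (Complex.exp ζ) (Complex.exp ζ * 1) := by
    rw [← h3 1]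
    have e1 : dd Complex.I (dd 1 (fun x => V (Complex.exp x))) ζ =
        fderiv ℝ (fderiv ℝ (fun x => V (Complex.exp x))) ζ Complex.I 1 := by
      have := (hdd 1).fderiv
      unfold dd at this ⊢
      rw [this]
      rfl
    have e2 : dd 1 (dd Complex.I (fun x => V (Complex.exp x))) ζ =
        fderiv ℝ (fderiv ℝ (fun x => V (Complex.exp x))) ζ 1 Complex.I := by
      have := (hdd Complex.I).fderiv
      unfold dd at this ⊢
      rw [this]
      rfl
    rw [e1, e2]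
    exact hsymm _ _
  refine ⟨(hdd 1).differentiableAt, (hdd Complex.I).differentiableAt, h3, h4, ?_⟩
  have h5 := hLAP V Complex.exp ζ (hVat.of_le (by norm_cast)) analyticAt_cexp
  rw [Complex.deriv_exp] at h5
  have h6 := h3 Complex.I
  unfold la at h5
  rw [h6] at h5
  unfold la
  linarith

/-- the value of `A` -/
noncomputable def Af (V : ℂ → ℝ) (w : ℂ) : ℝ := fderiv ℝ V w (w * 1)

/-- `dd 1 (dd 1 𝒱)` -/
noncomputable def P1 (φ : ℂ → ℂ) (V : ℂ → ℝ) (lam c : ℝ) (w : ℂ) : ℝ :=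
  ‖w‖ ^ 2 * (-lam * ‖deriv φ w‖ ^ 2 * (V w + c)) - fderiv ℝ (Lr V) w (w * Complex.I)

noncomputable def G0 (φ : ℂ → ℂ) (V : ℂ → ℝ) (a : ℂ) (b : ℝ) (w : ℂ) : ℝ :=
  (k1 φ a b w).re * Af V w + (k1 φ a b w).im * Lr V w

noncomputable def GI (φ : ℂ → ℂ) (V : ℂ → ℝ) (a : ℂ) (b : ℝ) (w : ℂ) : ℝ :=
  ((deriv (k1 φ a b) w * w * Complex.I).re * Af V w +
    (k1 φ a b w).re * fderiv ℝ (Lr V) w (w * 1)) +
  ((deriv (k1 φ a b) w * w * Complex.I).im * Lr V w +
    (k1 φ a b w).im * fderiv ℝ (Lr V) w (w * Complex.I))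

noncomputable def G1 (φ : ℂ → ℂ) (V : ℂ → ℝ) (lam c : ℝ) (a : ℂ) (b : ℝ) (w : ℂ) : ℝ :=
  ((deriv (k1 φ a b) w * w * 1).re * Af V w + (k1 φ a b w).re * P1 φ V lam c w) +
  ((deriv (k1 φ a b) w * w * 1).im * Lr V w +
    (k1 φ a b w).im * fderiv ℝ (Lr V) w (w * 1))

lemma formulas (hLAP : S_LAP) (h : Dom φ r) (hv : ContDiff ℝ 1 v)
    (hV : ContDiff ℝ 1 (Vd φ v)) (hW : ContDiff ℝ 1 (Lr (Vd φ v)))
    (hsm : ContDiffOn ℝ ∞ (Vd φ v) (ball 0 1))
    (heq : ∀ w ∈ ball (0 : ℂ) 1, la (Vd φ v) w = -lam * ‖deriv φ w‖ ^ 2 * (Vd φ v w + c))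
    (a : ℂ) (b : ℝ) {ζ : ℂ} (hζ : ζ.re < 0) :
    PP φ v a b ζ = G0 φ (Vd φ v) a b (Complex.exp ζ) ∧
    dd Complex.I (PP φ v a b) ζ = GI φ (Vd φ v) a b (Complex.exp ζ) ∧
    dd 1 (PP φ v a b) ζ = G1 φ (Vd φ v) lam c a b (Complex.exp ζ) := by
  have hw : ‖Complex.exp ζ‖ < 1 := by rw [Complex.norm_exp, Real.exp_lt_one_iff]; exact hζ
  obtain ⟨d1, d2, s1, s2, s3⟩ := second hLAP hV hW hsm hζ
  rw [heq _ (mem_ball_zero_iff.2 hw)] at s3
  have hF1 : dd 1 (fun x => Vd φ v (Complex.exp x)) ζ = Af (Vd φ v) (Complex.exp ζ) := by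
    rw [exp_chain hV]
    rfl
  have hF2 : dd Complex.I (fun x => Vd φ v (Complex.exp x)) ζ = Lr (Vd φ v) (Complex.exp ζ) := by
    rw [exp_chain hV]
    unfold Lr
    rw [mul_comm]
  have hk := kz_diff h a b hζ
  have hre : HasFDerivAt (fun ζ => (kz φ a b ζ).re) (Complex.reCLM.comp
      ((ContinuousLinearMap.mul ℝ ℂ) (deriv (k1 φ a b) (Complex.exp ζ) * Complex.exp ζ))) ζ :=
    Complex.reCLM.hasFDerivAt.comp ζ hk
  have him : HasFDerivAt (fun ζ => (kz φ a b ζ).im) (Complex.imCLM.comp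
      ((ContinuousLinearMap.mul ℝ ℂ) (deriv (k1 φ a b) (Complex.exp ζ) * Complex.exp ζ))) ζ :=
    Complex.imCLM.hasFDerivAt.comp ζ hk
  have hev : PP φ v a b =ᶠ[𝓝 ζ] fun ζ =>
      (kz φ a b ζ).re * dd 1 (fun x => Vd φ v (Complex.exp x)) ζ +
      (kz φ a b ζ).im * dd Complex.I (fun x => Vd φ v (Complex.exp x)) ζ := by
    have : ∀ᶠ x : ℂ in 𝓝 ζ, x.re < 0 := Complex.continuous_re.continuousAt.eventually
      (gt_mem_nhds hζ)
    filter_upwards [this] with x hx
    exact PP_eq h hv hV a b hx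
  have hder := (hre.mul d1.hasFDerivAt).add (him.mul d2.hasFDerivAt)
  have hval : ∀ η, dd η (PP φ v a b) ζ =
      ((deriv (k1 φ a b) (Complex.exp ζ) * Complex.exp ζ * η).re * Af (Vd φ v) (Complex.exp ζ) +
        (kz φ a b ζ).re * dd η (dd 1 (fun x => Vd φ v (Complex.exp x))) ζ) +
      ((deriv (k1 φ a b) (Complex.exp ζ) * Complex.exp ζ * η).im * Lr (Vd φ v) (Complex.exp ζ) +
        (kz φ a b ζ).im * dd η (dd Complex.I (fun x => Vd φ v (Complex.exp x))) ζ) := by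
    intro η
    unfold dd
    rw [hev.fderiv_eq]
    have e := hder.fderiv
    have e' : fderiv ℝ (fun ζ =>
      (kz φ a b ζ).re * dd 1 (fun x => Vd φ v (Complex.exp x)) ζ +
      (kz φ a b ζ).im * dd Complex.I (fun x => Vd φ v (Complex.exp x)) ζ) ζ = _ := e
    rw [e', hF1, hF2]
    simp only [ContinuousLinearMap.add_apply, ContinuousLinearMap.smul_apply, smul_eq_mul,
      ContinuousLinearMap.comp_apply, ContinuousLinearMap.mul_apply', Complex.reCLM_apply,
      Complex.imCLM_apply]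
    unfold dd
    ring
  refine ⟨?_, ?_, ?_⟩
  · rw [PP_eq h hv hV a b hζ, hF1, hF2]
    rfl
  · rw [hval, s1, s2]
    rfl
  · rw [hval, s1, s3]
    rfl

lemma ann_ne {w : ℂ} (hw : w ∈ closedBall (0 : ℂ) 1 \ ball 0 (1 / 2)) : w ≠ 0 := by
  intro h0
  apply hw.2
  rw [h0]
  exact mem_ball_self (by norm_num)

theorem t_LIM (hLAP : S_LAP) (hREG : S_REG) : S_LIM := by
  intro φ r lam c v a b h hD ε hε
  obtain ⟨hV, hW, hout, hsm, heq⟩ := hREG φ r lam c v h hD
  have hv : ContDiff ℝ 1 v := hD.c1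
  set V := Vd φ v with hVdef
  have cA : ContinuousOn (Af V) (closedBall 0 1 \ ball 0 (1 / 2)) := by
    have : Continuous (Af V) := by
      unfold Af
      exact (hV.continuous_fderiv (by norm_num)).clm_apply (by fun_prop)
    exact this.continuousOn
  have cW : ContinuousOn (Lr V) (closedBall 0 1 \ ball 0 (1 / 2)) := hW.continuous.continuousOn
  have cW1 : ContinuousOn (fun w : ℂ => fderiv ℝ (Lr V) w (w * 1))
      (closedBall 0 1 \ ball 0 (1 / 2)) :=
    ((hW.continuous_fderiv (by norm_num)).clm_apply (by fun_prop)).continuousOn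
  have cWI : ContinuousOn (fun w : ℂ => fderiv ℝ (Lr V) w (w * Complex.I))
      (closedBall 0 1 \ ball 0 (1 / 2)) :=
    ((hW.continuous_fderiv (by norm_num)).clm_apply (by fun_prop)).continuousOn
  have ck := k1_cont h a b
  have cdk := dk1_cont h a b
  have cid : ContinuousOn (fun w : ℂ => w) (closedBall 0 1 \ ball 0 (1 / 2)) := continuousOn_id
  have ckr : ContinuousOn (fun w => (k1 φ a b w).re) (closedBall 0 1 \ ball 0 (1 / 2)) :=
    Complex.continuous_re.comp_continuousOn ck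
  have cki : ContinuousOn (fun w => (k1 φ a b w).im) (closedBall 0 1 \ ball 0 (1 / 2)) :=
    Complex.continuous_im.comp_continuousOn ck
  have cdr : ∀ η : ℂ, ContinuousOn (fun w => (deriv (k1 φ a b) w * w * η).re)
      (closedBall 0 1 \ ball 0 (1 / 2)) := fun η =>
    Complex.continuous_re.comp_continuousOn ((cdk.mul cid).mul continuousOn_const)
  have cdi : ∀ η : ℂ, ContinuousOn (fun w => (deriv (k1 φ a b) w * w * η).im)
      (closedBall 0 1 \ ball 0 (1 / 2)) := fun η =>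
    Complex.continuous_im.comp_continuousOn ((cdk.mul cid).mul continuousOn_const)
  have cdφ : ContinuousOn (fun w => ‖deriv φ w‖) (closedBall 0 1 \ ball 0 (1 / 2)) :=
    ((h.hol.deriv isOpen_ball).continuousOn.mono
      ((ann_sub h).trans sdiff_subset)).norm
  have cP : ContinuousOn (P1 φ V lam c) (closedBall 0 1 \ ball 0 (1 / 2)) := by
    unfold P1
    exact (((cid.norm.pow 2).mul ((continuousOn_const.mul (cdφ.pow 2)).mul
      (hV.continuous.continuousOn.add continuousOn_const)))).sub cWI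
  have c0 : ContinuousOn (G0 φ V a b) (closedBall 0 1 \ ball 0 (1 / 2)) :=
    (ckr.mul cA).add (cki.mul cW)
  have cI : ContinuousOn (GI φ V a b) (closedBall 0 1 \ ball 0 (1 / 2)) :=
    (((cdr _).mul cA).add (ckr.mul cW1)).add (((cdi _).mul cW).add (cki.mul cWI))
  have c1 : ContinuousOn (G1 φ V lam c a b) (closedBall 0 1 \ ball 0 (1 / 2)) :=
    (((cdr _).mul cA).add (ckr.mul cP)).add (((cdi _).mul cW).add (cki.mul cW1))
  obtain ⟨δ0, hδ0, u0⟩ := unif _ c0 ε hε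
  obtain ⟨δI, hδI, uI⟩ := unif _ cI ε hε
  obtain ⟨δ1, hδ1, u1⟩ := unif _ c1 ε hε
  refine ⟨min δ0 (min δI δ1), by positivity, fun x y hx1 hx2 => ?_⟩
  have hx0 : -δ0 < x := lt_of_le_of_lt (neg_le_neg (min_le_left _ _)) hx1
  have hxI : -δI < x := lt_of_le_of_lt (neg_le_neg ((min_le_right _ _).trans (min_le_left _ _))) hx1
  have hx1' : -δ1 < x :=
    lt_of_le_of_lt (neg_le_neg ((min_le_right _ _).trans (min_le_right _ _))) hx1
  have hζ : ((x : ℂ) + y * Complex.I).re < 0 := by simpa using hx2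
  obtain ⟨f0, fI, f1⟩ := formulas hLAP h hv hV hW hsm heq a b hζ
  have hn : ‖Complex.exp (y * Complex.I)‖ = 1 := norm_e y
  obtain ⟨o1, o2, o3, o4⟩ := hout (Complex.exp (y * Complex.I)) hn.ge
  have z0 : G0 φ V a b (Complex.exp (y * Complex.I)) = 0 := by
    unfold G0 Af
    rw [o2, o3]
    simp
  have zI : GI φ V a b (Complex.exp (y * Complex.I)) = 0 := by
    unfold GI Af
    rw [o2, o3, o4]
    simp
  have z1 : G1 φ V lam c a b (Complex.exp (y * Complex.I)) =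
      -(lam * c * ip (kf a b (γ φ y)) (N φ y)) := by
    unfold G1 P1 Af
    rw [o1, o2, o3, o4, hn]
    have hne : N φ y ≠ 0 := norm_pos_iff.1 (h.N_pos y)
    have e1 : kf a b (γ φ y) = k1 φ a b (Complex.exp (y * Complex.I)) * N φ y := by
      unfold k1
      have : Complex.exp (y * Complex.I) * deriv φ (Complex.exp (y * Complex.I)) = N φ y := rfl
      rw [this, div_mul_cancel₀ _ hne]
      rfl
    have e2 : ip (kf a b (γ φ y)) (N φ y) =
        (k1 φ a b (Complex.exp (y * Complex.I))).re * ‖deriv φ (Complex.exp (y * Complex.I))‖ ^ 2 := by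
      unfold ip
      rw [e1, mul_assoc, Complex.mul_conj, Complex.normSq_eq_norm_sq, norm_N, Complex.re_mul_ofReal]
    rw [e2]
    simp
    ring
  refine ⟨?_, ?_, ?_⟩
  · have := u0 x y hx0 hx2
    rw [z0, sub_zero] at this
    rw [f0]
    exact this
  · have := uI x y hxI hx2
    rw [zI, sub_zero] at this
    rw [fI]
    exact this
  · have := u1 x y hx1' hx2
    rw [z1, sub_neg_eq_add] at this
    rw [f1]
    exact this

end LIM

end Pool.Agent.P8H8.SV
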