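import Pool.Agent.P8H8.SV.Asm
import Pool.Agent.P8H8.SV.Base2
import Pool.Agent.P8H8.SV.Lim2
import Pool.Agent.P8H8.SV.Reg
import Pool.Agent.P8H8.SV.Pull
import Pool.Agent.P8H94.SV.Flux
import Pool.Agent.P8H93.SV.Cub
import Pool.Agent.P8H93.SV.Vert
import Pool.Agent.P8H7.SV.Ang
import Pool.Agent.P8H7.SV.Conv
import Pool.Agent.P8H7.SV.Disc
import Pool.Agent.P8H69.SV.Fin
import Pool.Agent.P8H76.SV.Odd
import Pool.Agent.P8H76.SV.Second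
import Pool.Agent.P8H42.SV.Rep
import Pool.Agent.P8H42.SV.Rot

/-!
# Project SV: the main theorem (from WEAK)
-/

set_option autoImplicit false

open MeasureTheory Set Filter Metric
open scoped Topology ContDiff ComplexConjugate

namespace Pool.Agent.P8H8.SV

open Pool.Agent.R227.SA (la Dat dat_of_sol)
open Pool.Agent.TH298.Sch (Sol)

lemma speed_pos {φ : ℂ → ℂ} {r : ℝ} (h : Dom φ r) (t : ℝ) :
    0 < ‖deriv φ (Complex.exp (t * Complex.I))‖ := by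
  rw [← norm_N]
  exact h.N_pos t

theorem fin_main0 (hWEAK : S_WEAK) (φ : ℂ → ℂ) (r lam c : ℝ) (u : ℂ → ℝ) (G : ℂ → ℂ)
    (h : Dom φ r) (hlam : 0 < lam)
    (hS : Sol (φ '' ball 0 1) lam c u G) (hu0 : ¬ (u =ᵐ[volume.restrict (φ '' ball 0 1)] 0)) :
    (∀ (a : Fin 3 → ℂ) (b : Fin 3 → ℝ), ∫ t in (0 : ℝ)..2 * Real.pi,
      (∏ i, ip (kf (a i) (b i) (γ φ t)) (N φ t)) / ‖N φ t‖ ^ 2 = 0) ∧
    (Convex ℝ (φ '' ball 0 1) → (¬ ∃ (p : ℂ) (r0 : ℝ), 0 < r0 ∧ φ '' ball 0 1 = ball p r0) →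
      (∃ (a : ℂ) (R : ℝ), 0 < R ∧ AltSigns 3 (fun t => ‖γ φ t - a‖ - R)) ∧
      AltSigns 3 (deriv (curv φ))) ∧
    (Convex ℝ (φ '' ball 0 1) → (∀ w ∈ ball (0 : ℂ) r, φ (-w) = -φ w) →
      (¬ ∃ (p : ℂ) (r0 : ℝ), 0 < r0 ∧ φ '' ball 0 1 = ball p r0) →
      (∃ R : ℝ, 0 < R ∧ AltSigns 4 (fun t => ‖γ φ t‖ - R)) ∧
      AltSigns 4 (deriv (curv φ))) := by
  have hcont : ContinuousOn φ (closedBall 0 1) :=
    h.hol.continuousOn.mono (closedBall_subset_ball h.hr)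
  have hb : Bornology.IsBounded (φ '' ball 0 1) :=
    ((isCompact_closedBall (0 : ℂ) 1).image_of_continuousOn hcont).isBounded.subset
      (image_mono ball_subset_closedBall)
  have hop : IsOpen (φ '' ball 0 1) := by
    rw [← h.interior_closure]
    exact isOpen_interior
  have hc : c ≠ 0 := hS.c_ne hb hop.measurableSet hlam hu0
  have hREG : S_REG := REG.t_REG (PULL.t_PULL Pool.Agent.P8H94.SV.t_LAP) hWEAK
    Pool.Agent.P8H42.SV.t_ROT Pool.Agent.P8H42.SV.t_REP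
  have hLIM : S_LIM := LIM.t_LIM Pool.Agent.P8H94.SV.t_LAP hREG
  have hCUB : S_CUB := Pool.Agent.P8H93.SV.t_CUB Pool.Agent.P8H94.SV.t_FLUX hLIM
  have hcub := cubic hCUB φ r lam c u G h hlam hS hc
  have hVERT : S_VERT := Pool.Agent.P8H93.SV.t_VERT t_BASE
  exact ⟨hcub, fun h1 h2 => convex_main Pool.Agent.P8H7.SV.t_ANG Pool.Agent.P8H7.SV.t_CONV
      Pool.Agent.P8H69.SV.t_STURM Pool.Agent.P8H76.SV.t_CENTRE Pool.Agent.P8H76.SV.t_SECOND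
      Pool.Agent.P8H7.SV.t_DISC Pool.Agent.P8H76.SV.t_SUPP hVERT φ r h h1 hcub h2,
    fun h1 h3 h2 => odd_main Pool.Agent.P8H7.SV.t_ANG Pool.Agent.P8H7.SV.t_CONV
      Pool.Agent.P8H69.SV.t_STURM Pool.Agent.P8H76.SV.t_SECOND Pool.Agent.P8H7.SV.t_DISC
      Pool.Agent.P8H76.SV.t_ODD Pool.Agent.P8H76.SV.t_SUPP hVERT φ r h h1 hcub h3 h2⟩

end Pool.Agent.P8H8.SV
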