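import Pool.Agent.P8H8.SV.Core

/-!
# Project SV, package LIM: boundary values of the second derivatives
-/

set_option autoImplicit false

open MeasureTheory Set Filter Metric
open scoped Topology ContDiff ComplexConjugate

namespace Pool.Agent.P8H8.SV

open Pool.Agent.TH298.Sch (SC dd Lr)
open Pool.Agent.R227.SA (la Dat)

namespace LIM

/-- uniform continuity in the annulus -/
lemma unif (G : ℂ → ℝ) (hG : ContinuousOn G (closedBall 0 1 \ ball 0 (1 / 2))) (ε : ℝ)
    (hε : 0 < ε) : ∃ δ > 0, ∀ x y : ℝ, -δ < x → x < 0 →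
    |G (Complex.exp (x + y * Complex.I)) - G (Complex.exp (y * Complex.I))| < ε := by
  have hcomp : IsCompact (closedBall (0 : ℂ) 1 \ ball 0 (1 / 2)) :=
    (isCompact_closedBall 0 1).diff isOpen_ball
  have hu := hcomp.uniformContinuousOn_of_continuous hG
  rw [Metric.uniformContinuousOn_iff] at hu
  obtain ⟨δ, hδ, h⟩ := hu ε hε
  refine ⟨min δ (1 / 2), by positivity, fun x y h1 h2 => ?_⟩
  have hx1 : -δ < x := lt_of_le_of_lt (neg_le_neg (min_le_left _ _)) h1
  have hx2 : -(1 / 2) < x := lt_of_le_of_lt (neg_le_neg (min_le_right _ _)) h1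
  have hex : 1 + x ≤ Real.exp x := by linarith [Real.add_one_le_exp x]
  have hex2 : Real.exp x < 1 := by rw [Real.exp_lt_one_iff]; exact h2
  have n1 : ‖Complex.exp (x + y * Complex.I)‖ = Real.exp x := by
    rw [Complex.norm_exp]
    simp
  have n2 : ‖Complex.exp (y * Complex.I)‖ = 1 := Complex.norm_exp_ofReal_mul_I y
  have m1 : Complex.exp (x + y * Complex.I) ∈ closedBall (0 : ℂ) 1 \ ball 0 (1 / 2) := by
    rw [Set.mem_sdiff, mem_closedBall_zero_iff, mem_ball_zero_iff, n1]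
    exact ⟨hex2.le, by linarith⟩
  have m2 : Complex.exp (y * Complex.I) ∈ closedBall (0 : ℂ) 1 \ ball 0 (1 / 2) := by
    rw [Set.mem_sdiff, mem_closedBall_zero_iff, mem_ball_zero_iff, n2]
    norm_num
  have hd : dist (Complex.exp (x + y * Complex.I)) (Complex.exp (y * Complex.I)) < δ := by
    rw [dist_eq_norm, Complex.exp_add]
    have e : Complex.exp x * Complex.exp (y * Complex.I) - Complex.exp (y * Complex.I) =
        ((Real.exp x - 1 : ℝ) : ℂ) * Complex.exp (y * Complex.I) := by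
      push_cast
      ring
    rw [e, norm_mul, n2, mul_one, Complex.norm_real, Real.norm_eq_abs, abs_of_neg (by linarith)]
    linarith
  have := h _ m1 _ m2 hd
  rwa [Real.dist_eq] at this

variable {φ : ℂ → ℂ} {r lam c : ℝ} {v : ℂ → ℝ}

lemma Vd_eq (h : Dom φ r) {w : ℂ} (hw : ‖w‖ < 1) : Vd φ v =ᶠ[𝓝 w] fun x => v (φ x) := by
  have : ∀ᶠ x in 𝓝 w, ‖x‖ < 1 := continuous_norm.continuousAt.eventually (gt_mem_nhds hw)
  filter_upwards [this] with x hx
  unfold Vd
  rw [if_pos hx]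

lemma mem_r (h : Dom φ r) {w : ℂ} (hw : ‖w‖ ≤ 1) : w ∈ ball (0 : ℂ) r := by
  rw [mem_ball_zero_iff]
  linarith [h.hr]

/-- the real derivative of a holomorphic function -/
lemma real_deriv {f : ℂ → ℂ} {w : ℂ} (hf : DifferentiableAt ℂ f w) :
    HasFDerivAt f ((ContinuousLinearMap.mul ℝ ℂ) (deriv f w)) w := by
  have h1 := hf.hasDerivAt.hasFDerivAt.restrictScalars ℝ
  refine h1.congr_fderiv ?_
  ext <;> simp [mul_comm]

lemma chain (h : Dom φ r) (hv : ContDiff ℝ 1 v) {w : ℂ} (hw : ‖w‖ < 1) (η : ℂ) :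
    fderiv ℝ (Vd φ v) w η = fderiv ℝ v (φ w) (deriv φ w * η) := by
  rw [(Vd_eq h hw).fderiv_eq]
  have h1 : HasFDerivAt v (fderiv ℝ v (φ w)) (φ w) :=
    (hv.differentiable (by norm_num) _).hasFDerivAt
  have h2 := real_deriv (h.hol.differentiableAt (isOpen_ball.mem_nhds (mem_r h hw.le)))
  have h3 := h1.comp w h2
  have h4 : fderiv ℝ (fun x => v (φ x)) w = _ := h3.fderiv
  rw [h4]
  simp

lemma exp_chain {V : ℂ → ℝ} (hV : ContDiff ℝ 1 V) (ζ η : ℂ) :
    dd η (fun x => V (Complex.exp x)) ζ = fderiv ℝ V (Complex.exp ζ) (Complex.exp ζ * η) := by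
  have h1 : HasFDerivAt V (fderiv ℝ V (Complex.exp ζ)) (Complex.exp ζ) :=
    (hV.differentiable (by norm_num) _).hasFDerivAt
  have h2 := real_deriv (Complex.differentiable_exp ζ)
  have h3 := h1.comp ζ h2
  unfold dd
  have h4 : fderiv ℝ (fun x => V (Complex.exp x)) ζ = _ := h3.fderiv
  rw [h4]
  simp

/-- `PP` in terms of `V` -/
lemma PP_eq (h : Dom φ r) (hv : ContDiff ℝ 1 v) (hV : ContDiff ℝ 1 (Vd φ v)) (a : ℂ) (b : ℝ)
    {ζ : ℂ} (hζ : ζ.re < 0) :
    PP φ v a b ζ = (kz φ a b ζ).re * dd 1 (fun x => Vd φ v (Complex.exp x)) ζ +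
      (kz φ a b ζ).im * dd Complex.I (fun x => Vd φ v (Complex.exp x)) ζ := by
  have hw : ‖Complex.exp ζ‖ < 1 := by rw [Complex.norm_exp, Real.exp_lt_one_iff]; exact hζ
  rw [exp_chain hV, exp_chain hV]
  have e : kf a b (φ (Complex.exp ζ)) =
      deriv φ (Complex.exp ζ) * (Complex.exp ζ * kz φ a b ζ) := by
    unfold kz dF
    have h1 := h.deriv_ne (mem_r h hw.le)
    have h2 := Complex.exp_ne_zero ζ
    field_simp
  have e2 : Complex.exp ζ * kz φ a b ζ = (kz φ a b ζ).re • (Complex.exp ζ * 1) +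
      (kz φ a b ζ).im • (Complex.exp ζ * Complex.I) := by
    have h3 := Complex.re_add_im (kz φ a b ζ)
    simp only [Complex.real_smul]
    calc Complex.exp ζ * kz φ a b ζ = Complex.exp ζ * (((kz φ a b ζ).re : ℂ) +
        ((kz φ a b ζ).im : ℂ) * Complex.I) := by rw [h3]
      _ = _ := by ring
  unfold PP
  rw [e, ← chain h hv hw, e2, map_add, map_smul, map_smul]
  simp only [smul_eq_mul]

lemma kz_eq (φ : ℂ → ℂ) (a : ℂ) (b : ℝ) (ζ : ℂ) : kz φ a b ζ =
    (fun w => kf a b (φ w) / (w * deriv φ w)) (Complex.exp ζ) := rfl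

/-- the coefficient as a function of `w` -/
noncomputable def k1 (φ : ℂ → ℂ) (a : ℂ) (b : ℝ) (w : ℂ) : ℂ := kf a b (φ w) / (w * deriv φ w)

lemma k1_diff (h : Dom φ r) (a : ℂ) (b : ℝ) : DifferentiableOn ℂ (k1 φ a b) (ball 0 r \ {0}) := by
  intro w hw
  have h1 : DifferentiableAt ℂ φ w := h.hol.differentiableAt (isOpen_ball.mem_nhds hw.1)
  have h2 : DifferentiableAt ℂ (deriv φ) w :=
    (h.hol.deriv isOpen_ball).differentiableAt (isOpen_ball.mem_nhds hw.1)
  have h3 := h.deriv_ne hw.1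
  have h4 : w ≠ 0 := hw.2
  unfold k1 kf
  refine DifferentiableAt.differentiableWithinAt ?_
  exact ((h1.const_mul _).const_add _).div (differentiableAt_id.mul h2) (mul_ne_zero h4 h3)

lemma ann_sub (h : Dom φ r) : closedBall (0 : ℂ) 1 \ ball 0 (1 / 2) ⊆ ball 0 r \ {0} := by
  intro w hw
  refine ⟨mem_r h (mem_closedBall_zero_iff.1 hw.1), fun h0 => hw.2 ?_⟩
  rw [mem_singleton_iff] at h0
  rw [h0]
  exact mem_ball_self (by norm_num)

lemma k1_cont (h : Dom φ r) (a : ℂ) (b : ℝ) :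
    ContinuousOn (k1 φ a b) (closedBall 0 1 \ ball 0 (1 / 2)) :=
  (k1_diff h a b).continuousOn.mono (ann_sub h)

lemma dk1_cont (h : Dom φ r) (a : ℂ) (b : ℝ) :
    ContinuousOn (deriv (k1 φ a b)) (closedBall 0 1 \ ball 0 (1 / 2)) :=
  (((k1_diff h a b).deriv (isOpen_ball.sdiff isClosed_singleton)).continuousOn).mono (ann_sub h)

/-- the directional derivatives of `kz` -/
lemma kz_diff (h : Dom φ r) (a : ℂ) (b : ℝ) {ζ : ℂ} (hζ : ζ.re < 0) :
    HasFDerivAt (kz φ a b)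
      ((ContinuousLinearMap.mul ℝ ℂ) (deriv (k1 φ a b) (Complex.exp ζ) * Complex.exp ζ)) ζ := by
  have hw : ‖Complex.exp ζ‖ < 1 := by rw [Complex.norm_exp, Real.exp_lt_one_iff]; exact hζ
  have h1 : DifferentiableAt ℂ (k1 φ a b) (Complex.exp ζ) :=
    (k1_diff h a b).differentiableAt ((isOpen_ball.sdiff isClosed_singleton).mem_nhds
      ⟨mem_r h hw.le, Complex.exp_ne_zero ζ⟩)
  have h2 := h1.hasDerivAt.comp ζ (Complex.hasDerivAt_exp ζ)
  have h3 := real_deriv h2.differentiableAt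
  rw [h2.deriv] at h3
  exact h3

end LIM

end Pool.Agent.P8H8.SV
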